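import Mathlib
import Pool.Agent.U462.Mul.Prod

set_option autoImplicit false
set_option linter.unusedSectionVars false

/-! # Exponential tilting of adapted random sets: two sided moderate deviations -/

open MeasureTheory Filter Set
open scoped ENNReal Topology

namespace Pool.Agent.U462.Osc

open Pool.Agent.R528.RM (dens WV dens_meas lower_meas upper_meas WV_meas)
open Pool.Agent.U462.Mul (Ix Ix_of_mem Ix_of_notMem Ix_meas Ix_bd int_dens)

variable {Ω : Type} {m0 : MeasurableSpace Ω} {μ : Measure Ω} [IsProbabilityMeasure μ]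
  {ℱ : Filtration ℕ m0} {A : ℕ → Set Ω}

/-! ### Elementary inequalities -/

lemma exp_sub_le {θ : ℝ} (h : |θ| ≤ 1 / 2) : Real.exp θ - 1 - θ ≤ θ ^ 2 / 2 * (1 + 2 * |θ|) := by
  have h1 := Real.exp_bound' (x := |θ|) (abs_nonneg _) (by linarith) (n := 3) (by norm_num)
  have h2 : ∑ m ∈ Finset.range 3, |θ| ^ m / (m.factorial : ℝ) = 1 + |θ| + |θ| ^ 2 / 2 := by
    simp [Finset.sum_range_succ, Nat.factorial]
  rw [h2] at h1
  norm_num [Nat.factorial] at h1
  have h3 : Real.exp θ - 1 - θ ≤ Real.exp |θ| - 1 - |θ| := by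
    rcases le_total 0 θ with h4 | h4
    · rw [abs_of_nonneg h4]
    · rw [abs_of_nonpos h4]
      have h5 := Real.sinh_le_self_iff.2 h4
      rw [Real.sinh_eq] at h5
      linarith
  have h4 : |θ| ^ 2 = θ ^ 2 := sq_abs θ
  have h5 : |θ| ^ 3 = θ ^ 2 * |θ| := by rw [← h4]; ring
  rw [h5] at h1
  have h6 : 0 ≤ θ ^ 2 * |θ| := by positivity
  nlinarith

/-- the tilted probability -/
noncomputable def tq (θ q : ℝ) : ℝ := q * Real.exp θ / (1 + q * (Real.exp θ - 1))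

lemma exp_range {θ : ℝ} (h : |θ| ≤ 1 / 2) : 1 / 2 ≤ Real.exp θ ∧ Real.exp θ ≤ 2 := by
  obtain ⟨h1, h2⟩ := abs_le.1 h
  constructor
  · have := Real.add_one_le_exp θ
    linarith
  · have h3 : Real.exp θ ≤ Real.exp (1 / 2) := Real.exp_le_exp.2 h2
    have h4 : Real.exp (1 / 2) ≤ 2 := by
      have h5 : Real.exp (1 / 2) ^ 2 = Real.exp 1 := by rw [← Real.exp_nat_mul]; norm_num
      have h6 := Real.exp_one_lt_d9
      nlinarith [Real.exp_pos (1 / 2 : ℝ)]
    linarith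

lemma den_pos {θ q : ℝ} (h : |θ| ≤ 1 / 2) (hq : 0 ≤ q) (hq1 : q ≤ 1 / 4) : 3 / 4 ≤ 1 + q * (Real.exp θ - 1) := by
  have := exp_range h
  nlinarith

lemma tq_bd {θ q : ℝ} (h : |θ| ≤ 1 / 2) (hq : 0 ≤ q) (hq1 : q ≤ 1 / 4) : 0 ≤ tq θ q ∧ tq θ q ≤ 3 * q := by
  have h1 := den_pos h hq hq1
  have h2 := exp_range h
  unfold tq
  constructor
  · apply div_nonneg <;> nlinarith
  · rw [div_le_iff₀ (by linarith)]
    nlinarith

lemma one_sub_tq {θ q : ℝ} (h : |θ| ≤ 1 / 2) (hq : 0 ≤ q) (hq1 : q ≤ 1 / 4) :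
    1 - tq θ q = (1 - q) / (1 + q * (Real.exp θ - 1)) := by
  have h1 := den_pos h hq hq1
  unfold tq
  rw [eq_div_iff (by linarith), sub_mul, div_mul_cancel₀ _ (by linarith)]
  ring

set_option maxHeartbeats 4000000 in
/-- the exponent of the tilted density -/
lemma expo_le {θ q δ : ℝ} (h : |θ| ≤ 1 / 2) (hq : 0 ≤ q) (hq1 : q ≤ 1 / 4) (hqδ : q ≤ δ) :
    θ * tq θ q - Real.log (1 + q * (Real.exp θ - 1)) ≤ q * (θ ^ 2 / 2 * (1 + 4 * |θ| + 16 * δ)) := by
  have h1 := den_pos h hq hq1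
  have h2 := exp_range h
  obtain ⟨x, hx⟩ : ∃ x, x = Real.exp θ - 1 := ⟨_, rfl⟩
  have he : Real.exp θ = 1 + x := by rw [hx]; ring
  have hx1 : x - θ ≤ θ ^ 2 / 2 * (1 + 2 * |θ|) := by rw [hx]; exact exp_sub_le h
  have hx0 : θ ≤ x := by rw [hx]; have := Real.add_one_le_exp θ; linarith
  have hxa : |x| ≤ 2 * |θ| := by
    rw [abs_le]
    obtain ⟨g1, g2⟩ := abs_le.1 h
    have h3 : |θ| ^ 2 = θ ^ 2 := sq_abs θ
    have h4 := abs_nonneg θ
    have h5 := neg_abs_le θ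
    have h6 := le_abs_self θ
    constructor
    · linarith
    · nlinarith
  rw [← hx] at h1 ⊢
  -- the logarithm
  have h3 : q * x - 2 * (q * x) ^ 2 ≤ Real.log (1 + q * x) := by
    have h4 : |q * x| ≤ 1 / 4 := by
      rw [abs_mul, abs_of_nonneg hq]
      have : |x| ≤ 1 := by linarith
      nlinarith [abs_nonneg x]
    obtain ⟨g1, g2⟩ := abs_le.1 h4
    obtain ⟨y, hy⟩ : ∃ y, y = q * x := ⟨_, rfl⟩
    rw [← hy] at g1 g2 ⊢
    -- log (1 + y) ≥ 1 - 1/(1+y) = y / (1 + y) ≥ y - 2 y^2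
    have h5 := Real.one_sub_inv_le_log_of_pos (show 0 < 1 + y by linarith)
    have h6 : 1 - (1 + y)⁻¹ = y / (1 + y) := by
      rw [eq_div_iff (by linarith), sub_mul, inv_mul_cancel₀ (by linarith)]
      ring
    rw [h6] at h5
    refine le_trans ?_ h5
    rw [le_div_iff₀ (by linarith)]
    have h7 : 0 ≤ y ^ 2 * (1 + 2 * y) := mul_nonneg (sq_nonneg y) (by linarith)
    nlinarith
  -- θ tq ≤ θ q e^θ
  have h4 : θ * tq θ q ≤ θ * (q * Real.exp θ) := by
    unfold tq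
    rw [← hx]
    have h5 : 0 ≤ q * Real.exp θ := by positivity
    rcases le_total 0 θ with h6 | h6
    · apply mul_le_mul_of_nonneg_left _ h6
      apply div_le_self h5
      have : 0 ≤ q * x := mul_nonneg hq (by linarith)
      linarith
    · apply mul_le_mul_of_nonpos_left _ h6
      rw [le_div_iff₀ (by linarith)]
      have h7 : x ≤ 0 := by
        rw [hx]
        have := Real.exp_le_one_iff.2 h6
        linarith
      have : q * x ≤ 0 := mul_nonpos_of_nonneg_of_nonpos hq h7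
      nlinarith
  -- combine
  have h5 : θ * (q * Real.exp θ) - q * x = q * (θ * x - (x - θ)) := by rw [he]; ring
  have h6 : θ * x - (x - θ) ≤ θ ^ 2 / 2 * (1 + 4 * |θ|) := by
    -- θ x ≤ θ² + |θ| (x - θ)
    have e1 : θ * x = θ ^ 2 + θ * (x - θ) := by ring
    have e2 : θ * (x - θ) ≤ |θ| * (x - θ) := mul_le_mul_of_nonneg_right (le_abs_self θ) (by linarith)
    have e3 : x - θ ≥ θ ^ 2 / 2 * (1 - |θ|) := by
      -- e^θ ≥ 1 + θ + θ²/2 - |θ|³/2
      rw [hx]
      rcases le_total 0 θ with h8 | h8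
      · have := Real.quadratic_le_exp_of_nonneg h8
        have h9 : 0 ≤ θ ^ 2 / 2 * |θ| := by positivity
        nlinarith
      · -- exp θ ≥ 1 + θ + θ^2/2 + θ^3/6 for θ ≤ 0
        have h9 : 1 + θ + θ ^ 2 / 2 + θ ^ 3 / 2 ≤ Real.exp θ := by
          have h10 := Real.quadratic_le_exp_of_nonneg (show 0 ≤ -θ by linarith)
          have h11 : Real.exp θ = (Real.exp (-θ))⁻¹ := by rw [Real.exp_neg, inv_inv]
          have h12 : Real.exp (-θ) ≤ 1 + (-θ) + (-θ) ^ 2 / 2 + 2 / 9 * (-θ) ^ 3 := by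
            have h13 := Real.exp_bound' (x := -θ) (by linarith) (by linarith [(abs_le.1 h).1]) (n := 3) (by norm_num)
            have h14 : ∑ m ∈ Finset.range 3, (-θ) ^ m / (m.factorial : ℝ) = 1 + (-θ) + (-θ) ^ 2 / 2 := by
              simp [Finset.sum_range_succ, Nat.factorial]
            rw [h14] at h13
            norm_num [Nat.factorial] at h13
            nlinarith
          obtain ⟨s, hs⟩ : ∃ s, s = -θ := ⟨_, rfl⟩
          have hs0 : 0 ≤ s := by linarith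
          have hs1 : s ≤ 1 / 2 := by linarith [(abs_le.1 h).1]
          have hθs : θ = -s := by linarith
          rw [← hs] at h12
          have h15 : 1 - s + s ^ 2 / 2 - s ^ 3 / 2 ≤ Real.exp θ := by
            rw [h11, ← hs, ← one_div, le_div_iff₀ (Real.exp_pos _)]
            have h16 : 0 ≤ 1 - s + s ^ 2 / 2 - s ^ 3 / 2 := by nlinarith [pow_nonneg hs0 3, pow_nonneg hs0 2]
            refine (mul_le_mul_of_nonneg_left h12 h16).trans ?_
            nlinarith [pow_nonneg hs0 3, pow_nonneg hs0 4, pow_nonneg hs0 5, pow_nonneg hs0 6,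
              mul_nonneg (pow_nonneg hs0 3) (sub_nonneg.2 hs1), mul_nonneg (pow_nonneg hs0 4) (sub_nonneg.2 hs1)]
          rw [hθs] at h15 ⊢
          nlinarith
        have h10 : |θ| = -θ := abs_of_nonpos h8
        rw [h10]
        nlinarith
    have e4 : |θ| * (x - θ) ≤ |θ| * (θ ^ 2 / 2 * (1 + 2 * |θ|)) := mul_le_mul_of_nonneg_left hx1 (abs_nonneg _)
    have e5 : |θ| * (θ ^ 2 / 2 * (1 + 2 * |θ|)) ≤ θ ^ 2 / 2 * (2 * |θ|) := by
      have : 0 ≤ θ ^ 2 / 2 * |θ| := by positivity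
      nlinarith
    nlinarith
  have h7 : 2 * (q * x) ^ 2 ≤ q * (θ ^ 2 / 2 * (16 * δ)) := by
    have e1 : x ^ 2 ≤ 4 * θ ^ 2 := by
      have := pow_le_pow_left₀ (abs_nonneg x) hxa 2
      rw [sq_abs, mul_pow, sq_abs] at this
      linarith
    have e2 : 2 * (q * x) ^ 2 = q * (2 * (q * x ^ 2)) := by ring
    rw [e2]
    apply mul_le_mul_of_nonneg_left _ hq
    have e6 : q * x ^ 2 ≤ δ * (4 * θ ^ 2) := mul_le_mul hqδ e1 (sq_nonneg x) (hq.trans hqδ)
    calc 2 * (q * x ^ 2) ≤ 2 * (δ * (4 * θ ^ 2)) := by linarith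
      _ = θ ^ 2 / 2 * (16 * δ) := by ring
  have h8 : q * (θ * x - (x - θ)) ≤ q * (θ ^ 2 / 2 * (1 + 4 * |θ|)) := mul_le_mul_of_nonneg_left h6 hq
  nlinarith

/-- the mean shift -/
lemma shift_ge {θ q δ : ℝ} (h : |θ| ≤ 1 / 2) (hq : 0 ≤ q) (hq1 : q ≤ 1 / 4) (hqδ : q ≤ δ) :
    q * (θ ^ 2 * (1 - |θ| - 2 * δ)) ≤ θ * (tq θ q - q) := by
  have h1 := den_pos h hq hq1
  obtain ⟨x, hx⟩ : ∃ x, x = Real.exp θ - 1 := ⟨_, rfl⟩
  have he : Real.exp θ = 1 + x := by rw [hx]; ring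
  have hx0 : θ ≤ x := by rw [hx]; have := Real.add_one_le_exp θ; linarith
  have hx1 : x - θ ≤ θ ^ 2 / 2 * (1 + 2 * |θ|) := by rw [hx]; exact exp_sub_le h
  rw [← hx] at h1
  have e1 : tq θ q - q = q * x * (1 - q) / (1 + q * x) := by
    unfold tq
    rw [← hx, he, eq_div_iff (by linarith), sub_mul, div_mul_cancel₀ _ (by linarith)]
    ring
  rw [e1]
  have h3 : |θ| ^ 2 = θ ^ 2 := sq_abs θ
  have h4 := abs_nonneg θ
  have h5 := neg_abs_le θ
  have h6 := le_abs_self θ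
  have hθx : θ ^ 2 * (1 - |θ|) ≤ θ * x := by
    rcases le_total 0 θ with h7 | h7
    · have : 0 ≤ θ ^ 2 * |θ| := by positivity
      nlinarith
    · have e2 : |θ| = -θ := abs_of_nonpos h7
      rw [e2] at hx1 ⊢
      have h8 : θ * (x - θ) ≥ θ * (θ ^ 2 / 2 * (1 + 2 * -θ)) := mul_le_mul_of_nonpos_left hx1 h7
      have h9 : -θ ≤ 1 / 2 := by rw [← e2]; exact h
      have h10 : 0 ≤ θ ^ 2 * (-θ) := by
        have : 0 ≤ -θ := by linarith
        positivity
      nlinarith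
  have hθx0 : 0 ≤ θ * x := by
    have : 0 ≤ θ ^ 2 * (1 - |θ|) := mul_nonneg (sq_nonneg _) (by linarith)
    linarith
  have e3 : θ * (q * x * (1 - q) / (1 + q * x)) = q * ((θ * x) * ((1 - q) / (1 + q * x))) := by ring
  rw [e3]
  apply mul_le_mul_of_nonneg_left _ hq
  have h7 : 1 - 2 * δ ≤ (1 - q) / (1 + q * x) := by
    rw [le_div_iff₀ (by linarith)]
    have hxle : x ≤ 1 := by
      have := (exp_range h).2
      rw [hx]; linarith
    have h8 : 1 + q * x ≤ 1 + q := by nlinarith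
    rcases le_total (1 - 2 * δ) 0 with h9 | h9
    · nlinarith
    · calc (1 - 2 * δ) * (1 + q * x) ≤ (1 - 2 * q) * (1 + q) := by
            apply mul_le_mul _ h8 (by linarith) (by linarith)
            linarith
        _ ≤ 1 - q := by nlinarith
  have hδ0 : 0 ≤ δ := hq.trans hqδ
  calc θ ^ 2 * (1 - |θ| - 2 * δ) ≤ θ ^ 2 * ((1 - |θ|) * (1 - 2 * δ)) := by
        apply mul_le_mul_of_nonneg_left _ (sq_nonneg _)
        nlinarith
    _ = (θ ^ 2 * (1 - |θ|)) * (1 - 2 * δ) := by ring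
    _ ≤ (θ * x) * ((1 - q) / (1 + q * x)) := by
        rcases le_total (1 - 2 * δ) 0 with h9 | h9
        · have e4 : 0 ≤ (1 - q) / (1 + q * x) := div_nonneg (by linarith) (by linarith)
          have e5 : 0 ≤ θ ^ 2 * (1 - |θ|) := mul_nonneg (sq_nonneg _) (by linarith)
          have e6 : (θ ^ 2 * (1 - |θ|)) * (1 - 2 * δ) ≤ 0 := mul_nonpos_of_nonneg_of_nonpos e5 h9
          have e7 : 0 ≤ (θ * x) * ((1 - q) / (1 + q * x)) := mul_nonneg hθx0 e4
          linarith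
        · exact mul_le_mul hθx h7 h9 hθx0

end Pool.Agent.U462.Osc
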