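import Mathlib
import Pool.Agent.U462.Osc.Tilt

set_option autoImplicit false
set_option linter.unusedSectionVars false

/-! # The tilted martingale -/

open MeasureTheory Filter Set
open scoped ENNReal Topology

namespace Pool.Agent.U462.Osc

open Pool.Agent.R528.RM (dens WV dens_meas lower_meas upper_meas WV_meas)
open Pool.Agent.U462.Mul (Ix Ix_of_mem Ix_of_notMem Ix_meas Ix_bd int_dens)

variable {Ω : Type} {m0 : MeasurableSpace Ω} {μ : Measure Ω} [IsProbabilityMeasure μ]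
  {ℱ : Filtration ℕ m0} {A : ℕ → Set Ω}

lemma Ix_cases (n : ℕ) (ω : Ω) : Ix A n ω = 0 ∨ Ix A n ω = 1 := by
  by_cases h : ω ∈ A n
  · exact Or.inr (Ix_of_mem h)
  · exact Or.inl (Ix_of_notMem h)

/-- integral of a function of the next decision -/
lemma int_two (hA : ∀ n, MeasurableSet[ℱ n] (A n)) (n : ℕ) {g0 g1 : Ω → ℝ} (h0 : StronglyMeasurable[ℱ n] g0)
    (h1 : StronglyMeasurable[ℱ n] g1) {C : ℝ} (hC0 : ∀ ω, |g0 ω| ≤ C) (hC1 : ∀ ω, |g1 ω| ≤ C) :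
    Integrable (fun ω => g0 ω * (1 - Ix A (n + 1) ω) + g1 ω * Ix A (n + 1) ω) μ ∧
    Integrable (fun ω => g0 ω * (1 - dens μ ℱ A n ω) + g1 ω * dens μ ℱ A n ω) μ ∧
    ∫ ω, (g0 ω * (1 - Ix A (n + 1) ω) + g1 ω * Ix A (n + 1) ω) ∂μ =
      ∫ ω, (g0 ω * (1 - dens μ ℱ A n ω) + g1 ω * dens μ ℱ A n ω) ∂μ := by
  have hA' : MeasurableSet (A (n + 1)) := ℱ.le (n + 1) _ (hA (n + 1))
  have hI : Integrable (Ix A (n + 1)) μ := (integrable_const (1 : ℝ)).indicator hA'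
  have hD : Integrable (dens μ ℱ A n) μ := integrable_condExp
  have hg0 : Integrable g0 μ := Integrable.of_bound ((h0.mono (ℱ.le n)).aestronglyMeasurable) C
    (Eventually.of_forall fun ω => by rw [Real.norm_eq_abs]; exact hC0 ω)
  have hdm : StronglyMeasurable[ℱ n] (fun ω => g1 ω - g0 ω) := h1.sub h0
  have hdb : ∀ ω, |g1 ω - g0 ω| ≤ 2 * C := fun ω => by
    have e1 := abs_le.1 (hC0 ω)
    have e2 := abs_le.1 (hC1 ω)
    rw [abs_le]; constructor <;> linarith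
  have hdI : Integrable (fun ω => (g1 ω - g0 ω) * Ix A (n + 1) ω) μ := by
    refine hI.bdd_mul (c := 2 * C) ((hdm.mono (ℱ.le n)).aestronglyMeasurable) ?_
    exact Eventually.of_forall fun ω => by rw [Real.norm_eq_abs]; exact hdb ω
  have hdD : Integrable (fun ω => (g1 ω - g0 ω) * dens μ ℱ A n ω) μ := by
    refine hD.bdd_mul (c := 2 * C) ((hdm.mono (ℱ.le n)).aestronglyMeasurable) ?_
    exact Eventually.of_forall fun ω => by rw [Real.norm_eq_abs]; exact hdb ω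
  have e1 : (fun ω => g0 ω * (1 - Ix A (n + 1) ω) + g1 ω * Ix A (n + 1) ω) =
      fun ω => g0 ω + (g1 ω - g0 ω) * Ix A (n + 1) ω := by funext ω; ring
  have e2 : (fun ω => g0 ω * (1 - dens μ ℱ A n ω) + g1 ω * dens μ ℱ A n ω) =
      fun ω => g0 ω + (g1 ω - g0 ω) * dens μ ℱ A n ω := by funext ω; ring
  rw [e1, e2]
  refine ⟨hg0.add hdI, hg0.add hdD, ?_⟩
  rw [integral_add hg0 hdI, integral_add hg0 hdD, int_dens (μ := μ) hA n hdm hdb]

/-- the assumption off the violations: small conditional probabilities -/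
def Sm (μ : Measure Ω) (ℱ : Filtration ℕ m0) (A V : ℕ → Set Ω) (u : ℕ → ℝ) (δ : ℝ) (n : ℕ) : Prop :=
  0 ≤ u (n + 1) ∧ ∀ ω, ω ∉ V n → 0 ≤ dens μ ℱ A n ω ∧ dens μ ℱ A n ω ≤ u (n + 1) ∧ dens μ ℱ A n ω ≤ δ

open Classical in
/-- the factor of the tilted density for the decision not to take the number -/
noncomputable def z0 (μ : Measure Ω) (ℱ : Filtration ℕ m0) (A V : ℕ → Set Ω) (θ : ℝ) (n : ℕ) (ω : Ω) : ℝ :=
  if ω ∈ V n then 1 else 1 / (1 + dens μ ℱ A n ω * (Real.exp θ - 1))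

open Classical in
/-- the factor of the tilted density for the decision to take the number -/
noncomputable def z1 (μ : Measure Ω) (ℱ : Filtration ℕ m0) (A V : ℕ → Set Ω) (θ : ℝ) (n : ℕ) (ω : Ω) : ℝ :=
  if ω ∈ V n then 1 else Real.exp θ / (1 + dens μ ℱ A n ω * (Real.exp θ - 1))

open Classical in
/-- the tilted mean -/
noncomputable def mq (μ : Measure Ω) (ℱ : Filtration ℕ m0) (A V : ℕ → Set Ω) (θ : ℝ) (n : ℕ) (ω : Ω) : ℝ :=
  if ω ∈ V n then 0 else tq θ (dens μ ℱ A n ω)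

open Classical in
/-- `1` off the violations -/
noncomputable def vq (V : ℕ → Set Ω) (n : ℕ) (ω : Ω) : ℝ := if ω ∈ V n then 0 else 1

/-- the density of one step -/
noncomputable def ZF (μ : Measure Ω) (ℱ : Filtration ℕ m0) (A V : ℕ → Set Ω) (θ : ℝ) (n : ℕ) (ω : Ω) : ℝ :=
  z0 μ ℱ A V θ n ω * (1 - Ix A (n + 1) ω) + z1 μ ℱ A V θ n ω * Ix A (n + 1) ω

/-- the increment of the tilted martingale -/
noncomputable def MF (μ : Measure Ω) (ℱ : Filtration ℕ m0) (A V : ℕ → Set Ω) (θ : ℝ) (n : ℕ) (ω : Ω) : ℝ :=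
  vq V n ω * Ix A (n + 1) ω - mq μ ℱ A V θ n ω

section step

variable {V : ℕ → Set Ω} {u : ℕ → ℝ} {δ θ : ℝ} {n : ℕ}

lemma z_bd (h : Sm μ ℱ A V u δ n) (hδ : δ ≤ 1 / 4) (hθ : |θ| ≤ 1 / 2) (ω : Ω) :
    0 ≤ z0 μ ℱ A V θ n ω ∧ z0 μ ℱ A V θ n ω ≤ 3 ∧ 0 ≤ z1 μ ℱ A V θ n ω ∧ z1 μ ℱ A V θ n ω ≤ 3 := by
  unfold z0 z1
  by_cases hV : ω ∈ V n
  · rw [if_pos hV, if_pos hV]; norm_num
  · rw [if_neg hV, if_neg hV]
    obtain ⟨h1, h2, h3⟩ := h.2 ω hV
    have h4 := den_pos hθ h1 (h3.trans hδ)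
    have h5 := exp_range hθ
    refine ⟨by positivity, ?_, by positivity, ?_⟩
    · rw [div_le_iff₀ (by linarith)]; linarith
    · rw [div_le_iff₀ (by linarith)]; linarith

lemma m_bd (h : Sm μ ℱ A V u δ n) (hδ : δ ≤ 1 / 4) (hθ : |θ| ≤ 1 / 2) (ω : Ω) :
    0 ≤ mq μ ℱ A V θ n ω ∧ mq μ ℱ A V θ n ω ≤ 1 ∧ 0 ≤ vq V n ω ∧ vq V n ω ≤ 1 ∧ mq μ ℱ A V θ n ω ≤ 3 * u (n + 1) := by
  unfold mq vq
  by_cases hV : ω ∈ V n
  · rw [if_pos hV, if_pos hV]
    have := h.1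
    refine ⟨le_rfl, zero_le_one, le_rfl, zero_le_one, by linarith⟩
  · rw [if_neg hV, if_neg hV]
    obtain ⟨h1, h2, h3⟩ := h.2 ω hV
    have h4 := tq_bd hθ h1 (h3.trans hδ)
    refine ⟨h4.1, by linarith [h4.2], zero_le_one, le_rfl, by linarith [h4.2]⟩

/-- the three identities of the tilting -/
lemma ident (h : Sm μ ℱ A V u δ n) (hδ : δ ≤ 1 / 4) (hθ : |θ| ≤ 1 / 2) (ω : Ω) (M : ℝ) :
    z0 μ ℱ A V θ n ω * (1 - dens μ ℱ A n ω) + z1 μ ℱ A V θ n ω * dens μ ℱ A n ω = 1 ∧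
    z0 μ ℱ A V θ n ω * (M - mq μ ℱ A V θ n ω) ^ 2 * (1 - dens μ ℱ A n ω) +
      z1 μ ℱ A V θ n ω * (M + (vq V n ω - mq μ ℱ A V θ n ω)) ^ 2 * dens μ ℱ A n ω =
        M ^ 2 + vq V n ω * (mq μ ℱ A V θ n ω * (1 - mq μ ℱ A V θ n ω)) := by
  unfold z0 z1 mq vq
  by_cases hV : ω ∈ V n
  · simp only [if_pos hV]
    constructor <;> ring
  · simp only [if_neg hV]
    obtain ⟨h1, h2, h3⟩ := h.2 ω hV
    obtain ⟨q, hq⟩ : ∃ q, q = dens μ ℱ A n ω := ⟨_, rfl⟩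
    rw [← hq] at h1 h2 h3 ⊢
    have h4 := den_pos hθ h1 (h3.trans hδ)
    have h5 := one_sub_tq hθ h1 (h3.trans hδ)
    obtain ⟨D, hD⟩ : ∃ D, D = 1 + q * (Real.exp θ - 1) := ⟨_, rfl⟩
    rw [← hD] at h4 h5 ⊢
    have hD0 : D ≠ 0 := by linarith
    have e1 : 1 / D * (1 - q) = 1 - tq θ q := by rw [h5]; ring
    have e2 : Real.exp θ / D * q = tq θ q := by unfold tq; rw [← hD]; ring
    constructor
    · rw [e1, e2]; ring
    · have e3 : 1 / D * (M - tq θ q) ^ 2 * (1 - q) + Real.exp θ / D * (M + (1 - tq θ q)) ^ 2 * q =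
          (1 / D * (1 - q)) * (M - tq θ q) ^ 2 + (Real.exp θ / D * q) * (M + (1 - tq θ q)) ^ 2 := by ring
      rw [e3, e1, e2]
      ring

lemma z0_meas (hV : ∀ n, MeasurableSet[ℱ n] (V n)) : StronglyMeasurable[ℱ n] (z0 μ ℱ A V θ n) := by
  unfold z0
  refine StronglyMeasurable.ite (hV n) stronglyMeasurable_const ?_
  exact stronglyMeasurable_const.div (stronglyMeasurable_const.add ((dens_meas n).mul stronglyMeasurable_const))

lemma z1_meas (hV : ∀ n, MeasurableSet[ℱ n] (V n)) : StronglyMeasurable[ℱ n] (z1 μ ℱ A V θ n) := by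
  unfold z1
  refine StronglyMeasurable.ite (hV n) stronglyMeasurable_const ?_
  exact stronglyMeasurable_const.div (stronglyMeasurable_const.add ((dens_meas n).mul stronglyMeasurable_const))

lemma mq_meas (hV : ∀ n, MeasurableSet[ℱ n] (V n)) : StronglyMeasurable[ℱ n] (mq μ ℱ A V θ n) := by
  unfold mq tq
  refine StronglyMeasurable.ite (hV n) stronglyMeasurable_const ?_
  exact ((dens_meas n).mul stronglyMeasurable_const).div
    (stronglyMeasurable_const.add ((dens_meas n).mul stronglyMeasurable_const))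

lemma vq_meas (hV : ∀ n, MeasurableSet[ℱ n] (V n)) : StronglyMeasurable[ℱ n] (vq V n) :=
  StronglyMeasurable.ite (hV n) stronglyMeasurable_const stronglyMeasurable_const

lemma ZF_meas (hA : ∀ n, MeasurableSet[ℱ n] (A n)) (hV : ∀ n, MeasurableSet[ℱ n] (V n)) :
    StronglyMeasurable[ℱ (n + 1)] (ZF μ ℱ A V θ n) := by
  have hI := Ix_meas hA (n + 1)
  have hm := ℱ.mono (Nat.le_succ n)
  exact ((z0_meas hV).mono hm |>.mul (stronglyMeasurable_const.sub hI)).add (((z1_meas hV).mono hm).mul hI)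

lemma MF_meas (hA : ∀ n, MeasurableSet[ℱ n] (A n)) (hV : ∀ n, MeasurableSet[ℱ n] (V n)) :
    StronglyMeasurable[ℱ (n + 1)] (MF μ ℱ A V θ n) := by
  have hI := Ix_meas hA (n + 1)
  have hm := ℱ.mono (Nat.le_succ n)
  exact (((vq_meas hV).mono hm).mul hI).sub ((mq_meas hV).mono hm)

lemma ZF_bd (h : Sm μ ℱ A V u δ n) (hδ : δ ≤ 1 / 4) (hθ : |θ| ≤ 1 / 2) (ω : Ω) :
    0 ≤ ZF μ ℱ A V θ n ω ∧ ZF μ ℱ A V θ n ω ≤ 3 := by
  obtain ⟨h1, h2, h3, h4⟩ := z_bd (μ := μ) (ℱ := ℱ) (A := A) h hδ hθ ω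
  unfold ZF
  rcases Ix_cases (A := A) (n + 1) ω with e | e <;> rw [e]
  · constructor <;> nlinarith
  · constructor <;> nlinarith

lemma MF_bd (h : Sm μ ℱ A V u δ n) (hδ : δ ≤ 1 / 4) (hθ : |θ| ≤ 1 / 2) (ω : Ω) : |MF μ ℱ A V θ n ω| ≤ 1 := by
  obtain ⟨h1, h2, h3, h4, -⟩ := m_bd (μ := μ) (ℱ := ℱ) (A := A) h hδ hθ ω
  unfold MF
  rw [abs_le]
  rcases Ix_cases (A := A) (n + 1) ω with e | e <;> rw [e]
  · constructor <;> linarith
  · constructor <;> linarith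

/-- the density in terms of the martingale -/
lemma ZF_le (h : Sm μ ℱ A V u δ n) (hδ0 : 0 ≤ δ) (hδ : δ ≤ 1 / 4) (hθ : |θ| ≤ 1 / 2) (ω : Ω) :
    ZF μ ℱ A V θ n ω ≤ Real.exp (θ * MF μ ℱ A V θ n ω + u (n + 1) * (θ ^ 2 / 2 * (1 + 4 * |θ| + 16 * δ))) := by
  have hk : 0 ≤ θ ^ 2 / 2 * (1 + 4 * |θ| + 16 * δ) := by positivity
  by_cases hV : ω ∈ V n
  · have e1 : ZF μ ℱ A V θ n ω = 1 := by unfold ZF z0 z1; rw [if_pos hV, if_pos hV]; ring
    have e2 : MF μ ℱ A V θ n ω = 0 := by unfold MF vq mq; rw [if_pos hV, if_pos hV]; ring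
    rw [e1, e2]
    apply Real.one_le_exp
    have := mul_nonneg h.1 hk
    linarith
  · obtain ⟨h1, h2, h3⟩ := h.2 ω hV
    obtain ⟨q, hq⟩ : ∃ q, q = dens μ ℱ A n ω := ⟨_, rfl⟩
    have h4 := den_pos hθ (hq ▸ h1) (hq ▸ h3.trans hδ)
    have h5 := expo_le hθ (hq ▸ h1) (hq ▸ h3.trans hδ) (hq ▸ h3)
    have hu : q * (θ ^ 2 / 2 * (1 + 4 * |θ| + 16 * δ)) ≤ u (n + 1) * (θ ^ 2 / 2 * (1 + 4 * |θ| + 16 * δ)) :=
      mul_le_mul_of_nonneg_right (hq ▸ h2) hk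
    obtain ⟨D, hD⟩ : ∃ D, D = 1 + q * (Real.exp θ - 1) := ⟨_, rfl⟩
    rw [← hD] at h4 h5
    have hD0 : 0 < D := by linarith
    have e1 : ZF μ ℱ A V θ n ω = Real.exp (θ * Ix A (n + 1) ω) / D := by
      unfold ZF z0 z1
      rw [if_neg hV, if_neg hV, ← hq, ← hD]
      rcases Ix_cases (A := A) (n + 1) ω with e | e <;> rw [e]
      · have e0 : θ * 0 = 0 := mul_zero θ
        rw [e0, Real.exp_zero]; ring
      · have e0 : θ * 1 = θ := mul_one θ
        rw [e0]; ring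
    have e2 : MF μ ℱ A V θ n ω = Ix A (n + 1) ω - tq θ q := by
      unfold MF vq mq; rw [if_neg hV, if_neg hV, ← hq]; ring
    rw [e1, e2]
    have e3 : Real.exp (θ * Ix A (n + 1) ω) / D = Real.exp (θ * Ix A (n + 1) ω - Real.log D) := by
      rw [Real.exp_sub, Real.exp_log hD0]
    rw [e3]
    apply Real.exp_le_exp.2
    nlinarith

open Classical in
/-- the increment of the compensated count off the violations -/
noncomputable def QF (μ : Measure Ω) (ℱ : Filtration ℕ m0) (A V : ℕ → Set Ω) (n : ℕ) (ω : Ω) : ℝ :=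
  if ω ∈ V n then 0 else Ix A (n + 1) ω - dens μ ℱ A n ω

lemma exp_QF_le (h : Sm μ ℱ A V u δ n) (hδ : δ ≤ 1 / 4) (hθ : |θ| ≤ 1 / 2) (ω : Ω) :
    Real.exp (θ * QF μ ℱ A V n ω) ≤ ZF μ ℱ A V θ n ω * Real.exp (u (n + 1) * (θ ^ 2 / 2 * (1 + 2 * |θ|))) := by
  have hk : 0 ≤ θ ^ 2 / 2 * (1 + 2 * |θ|) := by positivity
  by_cases hV : ω ∈ V n
  · have e1 : ZF μ ℱ A V θ n ω = 1 := by unfold ZF z0 z1; rw [if_pos hV, if_pos hV]; ring
    have e2 : QF μ ℱ A V n ω = 0 := by unfold QF; rw [if_pos hV]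
    rw [e1, e2, one_mul]
    apply Real.exp_le_exp.2
    have := mul_nonneg h.1 hk
    linarith
  · obtain ⟨h1, h2, h3⟩ := h.2 ω hV
    obtain ⟨q, hq⟩ : ∃ q, q = dens μ ℱ A n ω := ⟨_, rfl⟩
    have h4 := den_pos hθ (hq ▸ h1) (hq ▸ h3.trans hδ)
    have h5 := exp_sub_le hθ
    have hq0 : 0 ≤ q := hq ▸ h1
    have hqu : q ≤ u (n + 1) := hq ▸ h2
    obtain ⟨D, hD⟩ : ∃ D, D = 1 + q * (Real.exp θ - 1) := ⟨_, rfl⟩
    rw [← hD] at h4
    have hD0 : 0 < D := by linarith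
    have e1 : ZF μ ℱ A V θ n ω = Real.exp (θ * Ix A (n + 1) ω) / D := by
      unfold ZF z0 z1
      rw [if_neg hV, if_neg hV, ← hq, ← hD]
      rcases Ix_cases (A := A) (n + 1) ω with e | e <;> rw [e]
      · have e0 : θ * 0 = 0 := mul_zero θ
        rw [e0, Real.exp_zero]; ring
      · have e0 : θ * 1 = θ := mul_one θ
        rw [e0]; ring
    have e2 : QF μ ℱ A V n ω = Ix A (n + 1) ω - q := by unfold QF; rw [if_neg hV, ← hq]
    rw [e1, e2]
    have e3 : Real.exp (θ * Ix A (n + 1) ω) / D = Real.exp (θ * Ix A (n + 1) ω - Real.log D) := by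
      rw [Real.exp_sub, Real.exp_log hD0]
    rw [e3, ← Real.exp_add]
    apply Real.exp_le_exp.2
    have h6 : Real.log D ≤ q * (Real.exp θ - 1) := by
      have := Real.log_le_sub_one_of_pos hD0
      rw [hD] at this ⊢
      linarith
    have h7 : q * (Real.exp θ - 1 - θ) ≤ u (n + 1) * (θ ^ 2 / 2 * (1 + 2 * |θ|)) :=
      mul_le_mul hqu h5 (by have := Real.add_one_le_exp θ; linarith) h.1
    nlinarith

end step

/-! ### Windows -/

/-- the density over `(t, t + j]` -/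
noncomputable def ZN (μ : Measure Ω) (ℱ : Filtration ℕ m0) (A V : ℕ → Set Ω) (θ : ℝ) (t j : ℕ) (ω : Ω) : ℝ :=
  ∏ i ∈ Finset.range j, ZF μ ℱ A V θ (t + i) ω

/-- the tilted martingale over `(t, t + j]` -/
noncomputable def MN (μ : Measure Ω) (ℱ : Filtration ℕ m0) (A V : ℕ → Set Ω) (θ : ℝ) (t j : ℕ) (ω : Ω) : ℝ :=
  ∑ i ∈ Finset.range j, MF μ ℱ A V θ (t + i) ω

/-- the compensated count over `(t, t + j]` -/
noncomputable def QN (μ : Measure Ω) (ℱ : Filtration ℕ m0) (A V : ℕ → Set Ω) (t j : ℕ) (ω : Ω) : ℝ :=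
  ∑ i ∈ Finset.range j, QF μ ℱ A V (t + i) ω

section window

variable {V : ℕ → Set Ω} {u : ℕ → ℝ} {δ θ : ℝ} {t : ℕ}

lemma ZN_succ (j : ℕ) (ω : Ω) : ZN μ ℱ A V θ t (j + 1) ω = ZN μ ℱ A V θ t j ω * ZF μ ℱ A V θ (t + j) ω := by
  unfold ZN; rw [Finset.prod_range_succ]

lemma MN_succ (j : ℕ) (ω : Ω) : MN μ ℱ A V θ t (j + 1) ω = MN μ ℱ A V θ t j ω + MF μ ℱ A V θ (t + j) ω := by
  unfold MN; rw [Finset.sum_range_succ]

lemma ZN_meas (hA : ∀ n, MeasurableSet[ℱ n] (A n)) (hV : ∀ n, MeasurableSet[ℱ n] (V n)) (j : ℕ) :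
    StronglyMeasurable[ℱ (t + j)] (ZN μ ℱ A V θ t j) := by
  induction j with
  | zero =>
    have : ZN μ ℱ A V θ t 0 = fun _ => 1 := by funext ω; simp [ZN]
    rw [this]; exact stronglyMeasurable_const
  | succ j ih =>
    have : ZN μ ℱ A V θ t (j + 1) = fun ω => ZN μ ℱ A V θ t j ω * ZF μ ℱ A V θ (t + j) ω := by
      funext ω; exact ZN_succ j ω
    rw [this]
    exact (ih.mono (ℱ.mono (by omega))).mul (ZF_meas hA hV)

lemma MN_meas (hA : ∀ n, MeasurableSet[ℱ n] (A n)) (hV : ∀ n, MeasurableSet[ℱ n] (V n)) (j : ℕ) :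
    StronglyMeasurable[ℱ (t + j)] (MN μ ℱ A V θ t j) := by
  induction j with
  | zero =>
    have : MN μ ℱ A V θ t 0 = fun _ => 0 := by funext ω; simp [MN]
    rw [this]; exact stronglyMeasurable_const
  | succ j ih =>
    have : MN μ ℱ A V θ t (j + 1) = fun ω => MN μ ℱ A V θ t j ω + MF μ ℱ A V θ (t + j) ω := by
      funext ω; exact MN_succ j ω
    rw [this]
    exact (ih.mono (ℱ.mono (by omega))).add (MF_meas hA hV)

lemma ZN_bd (hδ : δ ≤ 1 / 4) (hθ : |θ| ≤ 1 / 2) (j : ℕ) (h : ∀ i < j, Sm μ ℱ A V u δ (t + i)) (ω : Ω) :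
    0 ≤ ZN μ ℱ A V θ t j ω ∧ ZN μ ℱ A V θ t j ω ≤ 3 ^ j := by
  unfold ZN
  constructor
  · exact Finset.prod_nonneg fun i hi => (ZF_bd (h i (Finset.mem_range.1 hi)) hδ hθ ω).1
  · calc ∏ i ∈ Finset.range j, ZF μ ℱ A V θ (t + i) ω ≤ ∏ _i ∈ Finset.range j, (3 : ℝ) :=
          Finset.prod_le_prod (fun i hi => (ZF_bd (h i (Finset.mem_range.1 hi)) hδ hθ ω).1)
            (fun i hi => (ZF_bd (h i (Finset.mem_range.1 hi)) hδ hθ ω).2)
      _ = 3 ^ j := by simp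

lemma MN_bd (hδ : δ ≤ 1 / 4) (hθ : |θ| ≤ 1 / 2) (j : ℕ) (h : ∀ i < j, Sm μ ℱ A V u δ (t + i)) (ω : Ω) :
    |MN μ ℱ A V θ t j ω| ≤ j := by
  unfold MN
  refine (Finset.abs_sum_le_sum_abs _ _).trans ?_
  calc ∑ i ∈ Finset.range j, |MF μ ℱ A V θ (t + i) ω| ≤ ∑ _i ∈ Finset.range j, (1 : ℝ) :=
        Finset.sum_le_sum fun i hi => MF_bd (h i (Finset.mem_range.1 hi)) hδ hθ ω
    _ = j := by simp

/-- total mass of the tilted measure, and second moment of the tilted martingale -/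
theorem tilted (hA : ∀ n, MeasurableSet[ℱ n] (A n)) (hV : ∀ n, MeasurableSet[ℱ n] (V n)) (hδ : δ ≤ 1 / 4)
    (hθ : |θ| ≤ 1 / 2) {B : Set Ω} (hB : MeasurableSet[ℱ t] B) :
    ∀ j, (∀ i < j, Sm μ ℱ A V u δ (t + i)) →
      ∫ ω, B.indicator (fun _ => (1 : ℝ)) ω * ZN μ ℱ A V θ t j ω ∂μ = μ.real B ∧
      ∫ ω, B.indicator (fun _ => (1 : ℝ)) ω * ZN μ ℱ A V θ t j ω * MN μ ℱ A V θ t j ω ^ 2 ∂μ ≤
        (∑ i ∈ Finset.range j, 3 * u (t + i + 1)) * μ.real B := by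
  classical
  have hB' : MeasurableSet B := ℱ.le t _ hB
  intro j
  induction j with
  | zero =>
    intro _
    constructor
    · simp only [ZN, Finset.range_zero, Finset.prod_empty, mul_one]
      rw [integral_indicator_const _ hB', smul_eq_mul, mul_one]
    · simp [MN]
  | succ j ih =>
    intro h
    obtain ⟨ih1, ih2⟩ := ih (fun i hi => h i (by omega))
    have hj := h j (by omega)
    obtain ⟨F, hF⟩ : ∃ F : Ω → ℝ, F = fun ω => B.indicator (fun _ => (1 : ℝ)) ω * ZN μ ℱ A V θ t j ω := ⟨_, rfl⟩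
    have hFm : StronglyMeasurable[ℱ (t + j)] F := by
      rw [hF]
      exact (stronglyMeasurable_const.indicator (ℱ.mono (by omega) _ hB)).mul (ZN_meas hA hV j)
    have hFb : ∀ ω, 0 ≤ F ω ∧ F ω ≤ 3 ^ j := by
      intro ω
      obtain ⟨g1, g2⟩ := ZN_bd hδ hθ j (fun i hi => h i (by omega)) ω
      rw [hF]
      simp only
      by_cases hω : ω ∈ B
      · rw [Set.indicator_of_mem hω, one_mul]; exact ⟨g1, g2⟩
      · rw [Set.indicator_of_notMem hω, zero_mul]; exact ⟨le_rfl, by positivity⟩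
    have hzb := fun ω => z_bd (μ := μ) (ℱ := ℱ) (A := A) (θ := θ) hj hδ hθ ω
    have hmb := fun ω => m_bd (μ := μ) (ℱ := ℱ) (A := A) (θ := θ) hj hδ hθ ω
    have hMb := fun ω => MN_bd hδ hθ j (fun i hi => h i (by omega)) ω
    have hC3 : (0 : ℝ) ≤ 3 ^ j := by positivity
    constructor
    · -- the mass
      obtain ⟨-, -, e3⟩ := int_two (μ := μ) hA (t + j) (g0 := fun ω => F ω * z0 μ ℱ A V θ (t + j) ω)
        (g1 := fun ω => F ω * z1 μ ℱ A V θ (t + j) ω) (hFm.mul (z0_meas hV)) (hFm.mul (z1_meas hV)) (C := 3 ^ j * 3)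
        (fun ω => by
          rw [abs_of_nonneg (mul_nonneg (hFb ω).1 (hzb ω).1)]
          exact mul_le_mul (hFb ω).2 (hzb ω).2.1 (hzb ω).1 hC3)
        (fun ω => by
          rw [abs_of_nonneg (mul_nonneg (hFb ω).1 (hzb ω).2.2.1)]
          exact mul_le_mul (hFb ω).2 (hzb ω).2.2.2 (hzb ω).2.2.1 hC3)
      have e4 : ∫ ω, B.indicator (fun _ => (1 : ℝ)) ω * ZN μ ℱ A V θ t (j + 1) ω ∂μ =
          ∫ ω, (F ω * z0 μ ℱ A V θ (t + j) ω * (1 - Ix A (t + j + 1) ω) +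
            F ω * z1 μ ℱ A V θ (t + j) ω * Ix A (t + j + 1) ω) ∂μ := by
        refine integral_congr_ae (Eventually.of_forall fun ω => ?_)
        simp only
        rw [ZN_succ, hF]
        unfold ZF
        ring
      rw [e4, e3, ← ih1, hF]
      refine integral_congr_ae (Eventually.of_forall fun ω => ?_)
      simp only
      have := (ident (μ := μ) (ℱ := ℱ) (A := A) hj hδ hθ ω 0).1
      calc _ = B.indicator (fun _ => (1 : ℝ)) ω * ZN μ ℱ A V θ t j ω * (z0 μ ℱ A V θ (t + j) ω * (1 - dens μ ℱ A (t + j) ω) +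
            z1 μ ℱ A V θ (t + j) ω * dens μ ℱ A (t + j) ω) := by ring
        _ = _ := by rw [this, mul_one]
    · -- the second moment
      obtain ⟨M, hM⟩ : ∃ M : Ω → ℝ, M = MN μ ℱ A V θ t j := ⟨_, rfl⟩
      have hMm : StronglyMeasurable[ℱ (t + j)] M := by rw [hM]; exact MN_meas hA hV j
      rw [← hM] at hMb ih2
      have hsq : ∀ ω, (M ω - mq μ ℱ A V θ (t + j) ω) ^ 2 ≤ (j + 1) ^ 2 ∧
          (M ω + (vq V (t + j) ω - mq μ ℱ A V θ (t + j) ω)) ^ 2 ≤ (j + 1) ^ 2 := by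
        intro ω
        obtain ⟨g1, g2⟩ := abs_le.1 (hMb ω)
        obtain ⟨g3, g4, g5, g6, -⟩ := hmb ω
        constructor
        · apply sq_le_sq'
          · linarith
          · linarith
        · apply sq_le_sq'
          · linarith
          · linarith
      obtain ⟨-, i2, e3⟩ := int_two (μ := μ) hA (t + j)
        (g0 := fun ω => F ω * (z0 μ ℱ A V θ (t + j) ω * (M ω - mq μ ℱ A V θ (t + j) ω) ^ 2))
        (g1 := fun ω => F ω * (z1 μ ℱ A V θ (t + j) ω * (M ω + (vq V (t + j) ω - mq μ ℱ A V θ (t + j) ω)) ^ 2))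
        (hFm.mul ((z0_meas hV).mul ((hMm.sub (mq_meas hV)).pow 2)))
        (hFm.mul ((z1_meas hV).mul ((hMm.add ((vq_meas hV).sub (mq_meas hV))).pow 2)))
        (C := 3 ^ j * (3 * ((j : ℝ) + 1) ^ 2))
        (fun ω => by
          rw [abs_of_nonneg (mul_nonneg (hFb ω).1 (mul_nonneg (hzb ω).1 (sq_nonneg _)))]
          exact mul_le_mul (hFb ω).2 (mul_le_mul (hzb ω).2.1 (hsq ω).1 (sq_nonneg _) (by norm_num))
            (mul_nonneg (hzb ω).1 (sq_nonneg _)) hC3)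
        (fun ω => by
          rw [abs_of_nonneg (mul_nonneg (hFb ω).1 (mul_nonneg (hzb ω).2.2.1 (sq_nonneg _)))]
          exact mul_le_mul (hFb ω).2 (mul_le_mul (hzb ω).2.2.2 (hsq ω).2 (sq_nonneg _) (by norm_num))
            (mul_nonneg (hzb ω).2.2.1 (sq_nonneg _)) hC3)
      have e4 : ∫ ω, B.indicator (fun _ => (1 : ℝ)) ω * ZN μ ℱ A V θ t (j + 1) ω * MN μ ℱ A V θ t (j + 1) ω ^ 2 ∂μ =
          ∫ ω, (F ω * (z0 μ ℱ A V θ (t + j) ω * (M ω - mq μ ℱ A V θ (t + j) ω) ^ 2) * (1 - Ix A (t + j + 1) ω) +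
            F ω * (z1 μ ℱ A V θ (t + j) ω * (M ω + (vq V (t + j) ω - mq μ ℱ A V θ (t + j) ω)) ^ 2) *
              Ix A (t + j + 1) ω) ∂μ := by
        refine integral_congr_ae (Eventually.of_forall fun ω => ?_)
        simp only
        rw [ZN_succ, MN_succ, hF, hM]
        unfold ZF MF
        rcases Ix_cases (A := A) (t + j + 1) ω with e | e <;> rw [e] <;> ring
      rw [e4, e3]
      have e5 : ∀ ω, F ω * (z0 μ ℱ A V θ (t + j) ω * (M ω - mq μ ℱ A V θ (t + j) ω) ^ 2) * (1 - dens μ ℱ A (t + j) ω) +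
            F ω * (z1 μ ℱ A V θ (t + j) ω * (M ω + (vq V (t + j) ω - mq μ ℱ A V θ (t + j) ω)) ^ 2) *
              dens μ ℱ A (t + j) ω ≤ F ω * M ω ^ 2 + F ω * (3 * u (t + j + 1)) := by
        intro ω
        have h1 := (ident (μ := μ) (ℱ := ℱ) (A := A) hj hδ hθ ω (M ω)).2
        obtain ⟨g3, g4, g5, g6, g7⟩ := hmb ω
        have h2 : vq V (t + j) ω * (mq μ ℱ A V θ (t + j) ω * (1 - mq μ ℱ A V θ (t + j) ω)) ≤ 3 * u (t + j + 1) := by
          refine le_trans ?_ g7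
          have h3 : mq μ ℱ A V θ (t + j) ω * (1 - mq μ ℱ A V θ (t + j) ω) ≤ mq μ ℱ A V θ (t + j) ω := by nlinarith
          have h4 : 0 ≤ mq μ ℱ A V θ (t + j) ω * (1 - mq μ ℱ A V θ (t + j) ω) := mul_nonneg g3 (by linarith)
          nlinarith
        calc _ = F ω * (z0 μ ℱ A V θ (t + j) ω * (M ω - mq μ ℱ A V θ (t + j) ω) ^ 2 * (1 - dens μ ℱ A (t + j) ω) +
              z1 μ ℱ A V θ (t + j) ω * (M ω + (vq V (t + j) ω - mq μ ℱ A V θ (t + j) ω)) ^ 2 * dens μ ℱ A (t + j) ω) := by ring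
          _ = F ω * (M ω ^ 2 + vq V (t + j) ω * (mq μ ℱ A V θ (t + j) ω * (1 - mq μ ℱ A V θ (t + j) ω))) := by rw [h1]
          _ ≤ F ω * (M ω ^ 2 + 3 * u (t + j + 1)) := mul_le_mul_of_nonneg_left (by linarith) (hFb ω).1
          _ = _ := by ring
      have hFi : Integrable F μ := Integrable.of_bound ((hFm.mono (ℱ.le _)).aestronglyMeasurable) (3 ^ j)
        (Eventually.of_forall fun ω => by rw [Real.norm_eq_abs, abs_of_nonneg (hFb ω).1]; exact (hFb ω).2)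
      have hFMi : Integrable (fun ω => F ω * M ω ^ 2) μ :=
        Integrable.of_bound (((hFm.mul (hMm.pow 2)).mono (ℱ.le _)).aestronglyMeasurable) (3 ^ j * (j : ℝ) ^ 2)
          (Eventually.of_forall fun ω => by
            rw [Real.norm_eq_abs, abs_of_nonneg (mul_nonneg (hFb ω).1 (sq_nonneg _))]
            apply mul_le_mul (hFb ω).2 _ (sq_nonneg _) hC3
            rw [← sq_abs (M ω)]
            exact pow_le_pow_left₀ (abs_nonneg _) (hMb ω) 2)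
      have e6 : ∫ ω, (F ω * M ω ^ 2 + F ω * (3 * u (t + j + 1))) ∂μ =
          ∫ ω, F ω * M ω ^ 2 ∂μ + (3 * u (t + j + 1)) * μ.real B := by
        rw [integral_add hFMi (hFi.mul_const _), integral_mul_const]
        congr 1
        have : ∫ ω, F ω ∂μ = μ.real B := by rw [← ih1, hF]
        rw [this]; ring
      refine (integral_mono i2 (hFMi.add (hFi.mul_const _)) e5).trans ?_
      have e7 : ∫ ω, (F ω * M ω ^ 2 + F ω * (3 * u (t + j + 1))) ∂μ ≤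
          (∑ i ∈ Finset.range (j + 1), 3 * u (t + i + 1)) * μ.real B := by
        rw [e6, Finset.sum_range_succ, add_mul]
        have : ∫ ω, F ω * M ω ^ 2 ∂μ ≤ (∑ i ∈ Finset.range j, 3 * u (t + i + 1)) * μ.real B := by
          rw [hF]; exact ih2
        linarith
      exact e7

end window

end Pool.Agent.U462.Osc
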