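import Mathlib
import Pool.Agent.U462.Osc.Mart

set_option autoImplicit false
set_option linter.unusedSectionVars false

/-! # Moderate deviations of the compensated count in one window -/

open MeasureTheory Filter Set
open scoped ENNReal Topology

namespace Pool.Agent.U462.Osc

open Pool.Agent.R528.RM (dens WV dens_meas lower_meas upper_meas WV_meas)
open Pool.Agent.U462.Mul (Ix Ix_of_mem Ix_of_notMem Ix_meas Ix_bd int_dens)

variable {Ω : Type} {m0 : MeasurableSpace Ω} {μ : Measure Ω} [IsProbabilityMeasure μ]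
  {ℱ : Filtration ℕ m0} {A : ℕ → Set Ω} {V : ℕ → Set Ω} {u : ℕ → ℝ} {δ θ : ℝ} {t : ℕ}

lemma ZN_le (hδ0 : 0 ≤ δ) (hδ : δ ≤ 1 / 4) (hθ : |θ| ≤ 1 / 2) (j : ℕ) (h : ∀ i < j, Sm μ ℱ A V u δ (t + i)) (ω : Ω) :
    ZN μ ℱ A V θ t j ω ≤ Real.exp (θ * MN μ ℱ A V θ t j ω +
      (∑ i ∈ Finset.range j, u (t + i + 1)) * (θ ^ 2 / 2 * (1 + 4 * |θ| + 16 * δ))) := by
  unfold ZN MN
  rw [Finset.mul_sum, Finset.sum_mul, ← Finset.sum_add_distrib, Real.exp_sum]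
  exact Finset.prod_le_prod (fun i hi => (ZF_bd (h i (Finset.mem_range.1 hi)) hδ hθ ω).1)
    (fun i hi => ZF_le (h i (Finset.mem_range.1 hi)) hδ0 hδ hθ ω)

lemma exp_QN_le (hδ : δ ≤ 1 / 4) (hθ : |θ| ≤ 1 / 2) (j : ℕ) (h : ∀ i < j, Sm μ ℱ A V u δ (t + i)) (ω : Ω) :
    Real.exp (θ * QN μ ℱ A V t j ω) ≤ ZN μ ℱ A V θ t j ω *
      Real.exp ((∑ i ∈ Finset.range j, u (t + i + 1)) * (θ ^ 2 / 2 * (1 + 2 * |θ|))) := by
  unfold ZN QN
  rw [Finset.mul_sum, Finset.sum_mul, Real.exp_sum, Real.exp_sum, ← Finset.prod_mul_distrib]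
  exact Finset.prod_le_prod (fun i _ => (Real.exp_pos _).le)
    (fun i hi => exp_QF_le (h i (Finset.mem_range.1 hi)) hδ hθ ω)

lemma ZN_int (hA : ∀ n, MeasurableSet[ℱ n] (A n)) (hV : ∀ n, MeasurableSet[ℱ n] (V n)) (hδ : δ ≤ 1 / 4)
    (hθ : |θ| ≤ 1 / 2) (j : ℕ) (h : ∀ i < j, Sm μ ℱ A V u δ (t + i)) : Integrable (ZN μ ℱ A V θ t j) μ :=
  Integrable.of_bound (((ZN_meas hA hV j).mono (ℱ.le _)).aestronglyMeasurable) (3 ^ j)
    (Eventually.of_forall fun ω => by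
      obtain ⟨g1, g2⟩ := ZN_bd hδ hθ j h ω
      rw [Real.norm_eq_abs, abs_of_nonneg g1]; exact g2)

/-- **Upper bound** for the large deviations of the compensated count. -/
theorem upper_dev (hA : ∀ n, MeasurableSet[ℱ n] (A n)) (hV : ∀ n, MeasurableSet[ℱ n] (V n)) (hδ : δ ≤ 1 / 4)
    (hθ : |θ| ≤ 1 / 2) (j : ℕ) (h : ∀ i < j, Sm μ ℱ A V u δ (t + i)) (s : ℝ) :
    μ.real {ω | s ≤ θ * QN μ ℱ A V t j ω} ≤
      Real.exp ((∑ i ∈ Finset.range j, u (t + i + 1)) * (θ ^ 2 / 2 * (1 + 2 * |θ|)) - s) := by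
  obtain ⟨κ, hκ⟩ : ∃ κ, κ = (∑ i ∈ Finset.range j, u (t + i + 1)) * (θ ^ 2 / 2 * (1 + 2 * |θ|)) := ⟨_, rfl⟩
  have hZ := ZN_int (μ := μ) (ℱ := ℱ) (θ := θ) hA hV hδ hθ j h
  have h1 := (tilted (μ := μ) (θ := θ) hA hV hδ hθ (B := univ) MeasurableSet.univ j h).1
  simp only [Set.indicator_univ, one_mul, probReal_univ] at h1
  have h2 := mul_meas_ge_le_integral_of_nonneg (μ := μ) (f := fun ω => ZN μ ℱ A V θ t j ω * Real.exp κ)
    (Eventually.of_forall fun ω => mul_nonneg (ZN_bd hδ hθ j h ω).1 (Real.exp_pos _).le) (hZ.mul_const _) (Real.exp s)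
  rw [integral_mul_const, h1, one_mul] at h2
  have h3 : μ.real {ω | s ≤ θ * QN μ ℱ A V t j ω} ≤ μ.real {ω | Real.exp s ≤ ZN μ ℱ A V θ t j ω * Real.exp κ} := by
    apply measureReal_mono _ (measure_ne_top _ _)
    intro ω hω
    have hω' : s ≤ θ * QN μ ℱ A V t j ω := hω
    have := exp_QN_le (μ := μ) (ℱ := ℱ) (A := A) hδ hθ j h ω
    rw [← hκ] at this
    exact (Real.exp_le_exp.2 hω').trans this
  rw [← hκ, Real.exp_sub, le_div_iff₀ (Real.exp_pos _)]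
  calc μ.real {ω | s ≤ θ * QN μ ℱ A V t j ω} * Real.exp s ≤
        μ.real {ω | Real.exp s ≤ ZN μ ℱ A V θ t j ω * Real.exp κ} * Real.exp s :=
        mul_le_mul_of_nonneg_right h3 (Real.exp_pos _).le
    _ ≤ Real.exp κ := by rw [mul_comm]; exact h2

/-- **Lower bound**: the tilted martingale is small with a probability which is not too small. -/
theorem lower_dev (hA : ∀ n, MeasurableSet[ℱ n] (A n)) (hV : ∀ n, MeasurableSet[ℱ n] (V n)) (hδ0 : 0 ≤ δ)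
    (hδ : δ ≤ 1 / 4) (hθ : |θ| ≤ 1 / 2) (j : ℕ) (h : ∀ i < j, Sm μ ℱ A V u δ (t + i)) {l : ℝ} (hl : 0 < l)
    (hls : 2 * ∑ i ∈ Finset.range j, 3 * u (t + i + 1) ≤ l ^ 2) {B : Set Ω} (hB : MeasurableSet[ℱ t] B) :
    1 / 2 * Real.exp (-(|θ| * l + (∑ i ∈ Finset.range j, u (t + i + 1)) * (θ ^ 2 / 2 * (1 + 4 * |θ| + 16 * δ)))) *
      μ.real B ≤ μ.real (B ∩ {ω | |MN μ ℱ A V θ t j ω| ≤ l}) := by
  classical
  have hB' : MeasurableSet B := ℱ.le t _ hB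
  obtain ⟨κ, hκ⟩ : ∃ κ, κ = (∑ i ∈ Finset.range j, u (t + i + 1)) * (θ ^ 2 / 2 * (1 + 4 * |θ| + 16 * δ)) := ⟨_, rfl⟩
  rw [← hκ]
  have hZ := ZN_int (μ := μ) (ℱ := ℱ) (θ := θ) hA hV hδ hθ j h
  obtain ⟨h1, h2⟩ := tilted (μ := μ) (θ := θ) hA hV hδ hθ hB j h
  have hMm : Measurable (MN μ ℱ A V θ t j) := ((MN_meas hA hV j).mono (ℱ.le _)).measurable
  have hEm : MeasurableSet {ω | |MN μ ℱ A V θ t j ω| ≤ l} := by
    have h3 : Measurable (fun ω => |MN μ ℱ A V θ t j ω|) := by fun_prop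
    exact h3 measurableSet_Iic
  obtain ⟨E, hE⟩ : ∃ E, E = {ω | |MN μ ℱ A V θ t j ω| ≤ l} := ⟨_, rfl⟩
  rw [← hE] at hEm ⊢
  obtain ⟨F, hF⟩ : ∃ F : Ω → ℝ, F = fun ω => B.indicator (fun _ => (1 : ℝ)) ω * ZN μ ℱ A V θ t j ω := ⟨_, rfl⟩
  have hFi : Integrable F μ := by
    have : F = B.indicator (ZN μ ℱ A V θ t j) := by
      funext ω
      rw [hF]
      by_cases hω : ω ∈ B <;> simp [hω]
    rw [this]
    exact hZ.indicator hB'
  have hF0 : ∀ ω, 0 ≤ F ω := by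
    intro ω
    rw [hF]
    exact mul_nonneg (Set.indicator_nonneg (fun _ _ => zero_le_one) _) (ZN_bd hδ hθ j h ω).1
  have hFMi : Integrable (fun ω => F ω * MN μ ℱ A V θ t j ω ^ 2) μ := by
    refine Integrable.mono' (hFi.mul_const ((j : ℝ) ^ 2)) ?_ ?_
    · exact hFi.aestronglyMeasurable.mul ((hMm.pow_const 2).aestronglyMeasurable)
    · refine Eventually.of_forall fun ω => ?_
      rw [Real.norm_eq_abs, abs_of_nonneg (mul_nonneg (hF0 ω) (sq_nonneg _))]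
      apply mul_le_mul_of_nonneg_left _ (hF0 ω)
      rw [← sq_abs (MN μ ℱ A V θ t j ω)]
      exact pow_le_pow_left₀ (abs_nonneg _) (MN_bd hδ hθ j h ω) 2
  -- pointwise
  have h3 : ∀ ω, F ω ≤ E.indicator (fun ω => F ω) ω + F ω * MN μ ℱ A V θ t j ω ^ 2 / l ^ 2 := by
    intro ω
    by_cases hω : ω ∈ E
    · rw [Set.indicator_of_mem hω]
      have : 0 ≤ F ω * MN μ ℱ A V θ t j ω ^ 2 / l ^ 2 := div_nonneg (mul_nonneg (hF0 ω) (sq_nonneg _)) (sq_nonneg _)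
      linarith
    · rw [Set.indicator_of_notMem hω, zero_add, le_div_iff₀ (by positivity)]
      apply mul_le_mul_of_nonneg_left _ (hF0 ω)
      rw [hE] at hω
      have h4 : l < |MN μ ℱ A V θ t j ω| := not_le.1 hω
      rw [← sq_abs (MN μ ℱ A V θ t j ω)]
      exact pow_le_pow_left₀ hl.le h4.le 2
  have h4 : ∫ ω, F ω ∂μ ≤ ∫ ω, E.indicator (fun ω => F ω) ω ∂μ + (∫ ω, F ω * MN μ ℱ A V θ t j ω ^ 2 ∂μ) / l ^ 2 := by
    rw [← integral_div, ← integral_add (hFi.indicator hEm) (hFMi.div_const _)]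
    exact integral_mono hFi ((hFi.indicator hEm).add (hFMi.div_const _)) h3
  have h5 : ∫ ω, F ω ∂μ = μ.real B := by rw [hF]; exact h1
  have h6 : (∫ ω, F ω * MN μ ℱ A V θ t j ω ^ 2 ∂μ) / l ^ 2 ≤ 1 / 2 * μ.real B := by
    rw [div_le_iff₀ (by positivity)]
    have h7 : ∫ ω, F ω * MN μ ℱ A V θ t j ω ^ 2 ∂μ ≤ (∑ i ∈ Finset.range j, 3 * u (t + i + 1)) * μ.real B := by
      rw [hF]; exact h2
    refine h7.trans ?_
    have h8 : (0 : ℝ) ≤ μ.real B := measureReal_nonneg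
    nlinarith
  have h7 : 1 / 2 * μ.real B ≤ ∫ ω, E.indicator (fun ω => F ω) ω ∂μ := by linarith
  -- upper bound for the integral over E
  have h8 : ∫ ω, E.indicator (fun ω => F ω) ω ∂μ ≤ Real.exp (|θ| * l + κ) * μ.real (B ∩ E) := by
    have h9 : ∫ ω, (B ∩ E).indicator (fun _ => Real.exp (|θ| * l + κ)) ω ∂μ = Real.exp (|θ| * l + κ) * μ.real (B ∩ E) := by
      rw [integral_indicator_const _ (hB'.inter hEm), smul_eq_mul, mul_comm]
    rw [← h9]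
    refine integral_mono (hFi.indicator hEm) ((integrable_const _).indicator (hB'.inter hEm)) fun ω => ?_
    by_cases hω : ω ∈ E
    · rw [Set.indicator_of_mem hω]
      by_cases hωB : ω ∈ B
      · rw [Set.indicator_of_mem (show ω ∈ B ∩ E from ⟨hωB, hω⟩), hF]
        simp only
        rw [Set.indicator_of_mem hωB, one_mul]
        refine (ZN_le hδ0 hδ hθ j h ω).trans (Real.exp_le_exp.2 ?_)
        rw [← hκ]
        have h10 : |MN μ ℱ A V θ t j ω| ≤ l := by rw [hE] at hω; exact hω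
        have h11 : θ * MN μ ℱ A V θ t j ω ≤ |θ| * l := by
          calc θ * MN μ ℱ A V θ t j ω ≤ |θ * MN μ ℱ A V θ t j ω| := le_abs_self _
            _ = |θ| * |MN μ ℱ A V θ t j ω| := abs_mul _ _
            _ ≤ |θ| * l := mul_le_mul_of_nonneg_left h10 (abs_nonneg _)
        linarith
      · rw [hF]
        simp only
        rw [Set.indicator_of_notMem hωB, zero_mul]
        exact Set.indicator_nonneg (fun _ _ => (Real.exp_pos _).le) _
    · rw [Set.indicator_of_notMem hω]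
      exact Set.indicator_nonneg (fun _ _ => (Real.exp_pos _).le) _
  have h9 := h7.trans h8
  rw [Real.exp_neg, mul_assoc, mul_comm (Real.exp (|θ| * l + κ))⁻¹, ← mul_assoc, ← div_eq_mul_inv,
    div_le_iff₀ (Real.exp_pos _)]
  linarith

/-- without violations, a small tilted martingale means a large deviation of the compensated count -/
lemma QN_ge {lo : ℕ → ℝ} (hθ : |θ| ≤ 1 / 2) (hδ : δ ≤ 1 / 4) (hθδ : 0 ≤ 1 - |θ| - 2 * δ) (j : ℕ)
    (h : ∀ i < j, Sm μ ℱ A V u δ (t + i))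
    (hlo : ∀ i < j, 0 ≤ lo (t + i + 1) ∧ ∀ ω, ω ∉ V (t + i) → lo (t + i + 1) ≤ dens μ ℱ A (t + i) ω) {ω : Ω}
    (hω : ω ∉ WV V t j) {l : ℝ} (hl : |MN μ ℱ A V θ t j ω| ≤ l) :
    (∑ i ∈ Finset.range j, lo (t + i + 1)) * (θ ^ 2 * (1 - |θ| - 2 * δ)) - |θ| * l ≤ θ * QN μ ℱ A V t j ω := by
  have h1 : θ * QN μ ℱ A V t j ω = θ * MN μ ℱ A V θ t j ω +
      ∑ i ∈ Finset.range j, θ * (tq θ (dens μ ℱ A (t + i) ω) - dens μ ℱ A (t + i) ω) := by
    unfold QN MN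
    rw [Finset.mul_sum, Finset.mul_sum, ← Finset.sum_add_distrib]
    apply Finset.sum_congr rfl
    intro i hi
    rw [Finset.mem_range] at hi
    have hV : ω ∉ V (t + i) := fun hc => hω ⟨t + i, by omega, by omega, hc⟩
    unfold QF MF vq mq
    rw [if_neg hV, if_neg hV, if_neg hV]
    ring
  have h2 : (∑ i ∈ Finset.range j, lo (t + i + 1)) * (θ ^ 2 * (1 - |θ| - 2 * δ)) ≤
      ∑ i ∈ Finset.range j, θ * (tq θ (dens μ ℱ A (t + i) ω) - dens μ ℱ A (t + i) ω) := by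
    rw [Finset.sum_mul]
    apply Finset.sum_le_sum
    intro i hi
    rw [Finset.mem_range] at hi
    have hV : ω ∉ V (t + i) := fun hc => hω ⟨t + i, by omega, by omega, hc⟩
    obtain ⟨g1, g2, g3⟩ := (h i hi).2 ω hV
    refine le_trans ?_ (shift_ge hθ g1 (g3.trans hδ) g3)
    exact mul_le_mul_of_nonneg_right ((hlo i hi).2 ω hV) (mul_nonneg (sq_nonneg _) hθδ)
  have h3 : -(|θ| * l) ≤ θ * MN μ ℱ A V θ t j ω := by
    have h4 : |θ * MN μ ℱ A V θ t j ω| ≤ |θ| * l := by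
      rw [abs_mul]; exact mul_le_mul_of_nonneg_left hl (abs_nonneg _)
    linarith [(abs_le.1 h4).1]
  linarith

end Pool.Agent.U462.Osc
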