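import Mathlib
import Pool.Agent.U462.Osc.Win
import Pool.Agent.U462.Gap.Up

set_option autoImplicit false
set_option linter.unusedSectionVars false

/-! # The law of the iterated logarithm type for the counts in disjoint windows -/

open MeasureTheory Filter Set
open scoped ENNReal Topology

namespace Pool.Agent.U462.Osc

open Pool.Agent.R528.RM (dens WV dens_meas lower_meas upper_meas WV_meas)
open Pool.Agent.U462.Mul (Ix Ix_of_mem Ix_of_notMem Ix_meas Ix_bd int_dens)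
open Pool.Agent.U462.Gap (Model VD VD_meas no_VD bc cs low_tail)

variable {Ω : Type} {m0 : MeasurableSpace Ω} {μ : Measure Ω} [IsProbabilityMeasure μ]
  {ℱ : Filtration ℕ m0} {A : ℕ → Set Ω} {a : ℕ → ℝ}

open Classical in
lemma cs_mono (D : ℕ → Set Ω) (b : ℕ) (ω : Ω) : Monotone (fun j => cs D b j ω) := by
  intro i j hij
  unfold cs
  exact Finset.sum_le_sum_of_subset (Finset.range_mono hij)

open Classical in
lemma cs_bdd_of {D : ℕ → Set Ω} {b N : ℕ} {ω : Ω} (h : ∀ n, N ≤ n → ω ∉ D n) (j : ℕ) : cs D b j ω ≤ N := by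
  unfold cs
  have h1 : ∑ r ∈ Finset.range j, (if ω ∈ D (b + r) then 1 else 0) ≤
      ∑ r ∈ Finset.range j, (if r < N then 1 else 0) := by
    apply Finset.sum_le_sum
    intro r _
    by_cases h2 : r < N
    · rw [if_pos h2]; split_ifs <;> omega
    · rw [if_neg h2, if_neg (h (b + r) (by omega))]
  refine h1.trans ?_
  rw [← Finset.card_filter]
  calc ((Finset.range j).filter (fun r => r < N)).card ≤ (Finset.range N).card := by
        apply Finset.card_le_card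
        intro r hr
        rw [Finset.mem_filter] at hr
        exact Finset.mem_range.2 hr.2
    _ = N := Finset.card_range N

/-- infinitely many successes in successive trials -/
theorem io_of {D : ℕ → Set Ω} {s : ℕ → ℕ} (hs : Monotone s) {p : ℕ → ℝ} {N : ℕ}
    (hD : ∀ m, N ≤ m → MeasurableSet[ℱ (s (m + 1))] (D m))
    (hp : ∀ m, N ≤ m → ∀ C, MeasurableSet[ℱ (s m)] C → p m * μ.real C ≤ μ.real (C ∩ D m))
    (hdiv : Tendsto (fun j => ∑ m ∈ Finset.Ico N (N + j), p m) atTop atTop) :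
    ∀ᵐ ω ∂μ, ∃ᶠ n in atTop, ω ∈ D n := by
  have hκ : 0 < 1 - Real.exp (-1) := by
    have : Real.exp (-1) < 1 := Real.exp_lt_one_iff.2 (by norm_num)
    linarith
  have h1 : ∀ K : ℕ, μ {ω | ∀ j, cs D N j ω ≤ K} = 0 := by
    intro K
    have h2 : ∀ j, μ.real {ω | ∀ j, cs D N j ω ≤ K} ≤
        Real.exp (K - (1 - Real.exp (-1)) * ∑ m ∈ Finset.Ico N (N + j), p m) := by
      intro j
      have h3 := low_tail (μ := μ) (ℱ := ℱ) D s hs p j N (fun m h1 _ => hD m h1) (fun m h1 _ => hp m h1) univ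
        MeasurableSet.univ K
      rw [univ_inter, probReal_univ, mul_one] at h3
      exact (measureReal_mono (μ := μ) (show {ω | ∀ j, cs D N j ω ≤ K} ⊆ {ω | cs D N j ω ≤ K} from
        fun ω hω => hω j)).trans h3
    have h3 : Tendsto (fun j => Real.exp (K - (1 - Real.exp (-1)) * ∑ m ∈ Finset.Ico N (N + j), p m)) atTop (𝓝 0) := by
      apply Real.tendsto_exp_atBot.comp
      have h4 := hdiv.const_mul_atTop hκ
      have h5 := tendsto_neg_atTop_atBot.comp h4
      have h6 := tendsto_atBot_add_const_left atTop (K : ℝ) h5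
      refine h6.congr fun j => ?_
      simp only [Function.comp]
      ring
    have h4 : μ.real {ω | ∀ j, cs D N j ω ≤ K} ≤ 0 := ge_of_tendsto' h3 h2
    have h5 : μ.real {ω | ∀ j, cs D N j ω ≤ K} = 0 := le_antisymm h4 measureReal_nonneg
    rwa [measureReal_eq_zero_iff] at h5
  have h2 : ∀ᵐ ω ∂μ, ∀ K : ℕ, ¬ ∀ j, cs D N j ω ≤ K := by
    rw [ae_all_iff]
    intro K
    rw [ae_iff]
    simp only [not_not]
    exact h1 K
  filter_upwards [h2] with ω hω
  by_contra hc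
  rw [Filter.not_frequently, Filter.eventually_atTop] at hc
  obtain ⟨M, hM⟩ := hc
  exact hω M (fun j => cs_bdd_of hM j)

/-- the number of elements in `(t, t + j]` -/
noncomputable def cnt (A : ℕ → Set Ω) (t j : ℕ) (ω : Ω) : ℝ := ∑ i ∈ Finset.range j, Ix A (t + i + 1) ω

/-- the compensator over `(t, t + j]` -/
noncomputable def cmp (μ : Measure Ω) (ℱ : Filtration ℕ m0) (A : ℕ → Set Ω) (t j : ℕ) (ω : Ω) : ℝ :=
  ∑ i ∈ Finset.range j, dens μ ℱ A (t + i) ω

/-- the mass of `(t, t + j]` -/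
noncomputable def ms (a : ℕ → ℝ) (t j : ℕ) : ℝ := ∑ i ∈ Finset.range j, a (t + i + 1)

lemma QN_eq {V : ℕ → Set Ω} {t j : ℕ} {ω : Ω} (hω : ω ∉ WV V t j) : QN μ ℱ A V t j ω = cnt A t j ω - cmp μ ℱ A t j ω := by
  unfold QN cnt cmp
  rw [← Finset.sum_sub_distrib]
  apply Finset.sum_congr rfl
  intro i hi
  rw [Finset.mem_range] at hi
  have hV : ω ∉ V (t + i) := fun hc => hω ⟨t + i, by omega, by omega, hc⟩
  unfold QF
  rw [if_neg hV]

lemma sm_of (ha : ∀ n, 0 ≤ a n) {δ : ℝ} (hδ0 : 0 < δ) (hδ1 : δ ≤ 1) {n : ℕ} (h : a (n + 1) ≤ δ / 2) :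
    Sm μ ℱ A (VD μ ℱ A a δ) (fun m => (1 + δ) * a m) δ n := by
  have h1 := ha (n + 1)
  refine ⟨mul_nonneg (by linarith) h1, fun ω hω => ?_⟩
  simp only [VD, mem_ofPred_eq, not_not] at hω
  obtain ⟨g1, g2⟩ := abs_le.1 hω
  refine ⟨by nlinarith, by simp only; linarith, by nlinarith⟩

set_option maxHeartbeats 4000000 in
/-- **Upper half** -/
theorem osc_up (hM : Model μ ℱ A a) (ha : ∀ n, 0 ≤ a n) (ha0 : Tendsto a atTop (𝓝 0)) (t j : ℕ → ℕ)
    (ht : Tendsto t atTop atTop) (hR : Tendsto (fun n : ℕ => ms a (t n) (j n) / Real.log n) atTop atTop)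
    {s : ℝ} (hs : |s| = 1) {ε : ℝ} (hε : 0 < ε) : ∀ᵐ ω ∂μ, ∀ᶠ n : ℕ in atTop,
      s * (cnt A (t n) (j n) ω - cmp μ ℱ A (t n) (j n) ω) ≤ (1 + ε) * √(2 * ms a (t n) (j n) * Real.log n) := by
  obtain ⟨δ, hδ, hδ1, hδ2⟩ : ∃ δ : ℝ, 0 < δ ∧ δ ≤ 1 / 4 ∧ 2 * δ ≤ ε :=
    ⟨min (1 / 4) (ε / 2), lt_min (by norm_num) (by linarith), min_le_left _ _, by linarith [min_le_right (1 / 4) (ε / 2)]⟩
  obtain ⟨V, hVd⟩ : ∃ V, V = VD μ ℱ A a δ := ⟨_, rfl⟩
  have hV : ∀ n, MeasurableSet[ℱ n] (V n) := fun n => by rw [hVd]; exact VD_meas δ n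
  obtain ⟨n₁, hn₁⟩ := eventually_atTop.1 (ha0.eventually (eventually_le_nhds (show (0 : ℝ) < δ / 2 by positivity)))
  have hlog : Tendsto (fun n : ℕ => Real.log (n : ℝ)) atTop atTop := Real.tendsto_log_atTop.comp tendsto_natCast_atTop_atTop
  have hb : ∀ᶠ n : ℕ in atTop, μ.real {ω | (1 + ε) * √(2 * ms a (t n) (j n) * Real.log n) ≤
      s * QN μ ℱ A V (t n) (j n) ω} ≤ (n : ℝ) ^ (-(1 + ε)) := by
    filter_upwards [ht.eventually_ge_atTop n₁, hR.eventually_ge_atTop (32 / δ ^ 2), hlog.eventually_ge_atTop 1,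
      eventually_ge_atTop 2] with n g1 g2 g3 g4
    obtain ⟨R, hRd⟩ : ∃ R, R = ms a (t n) (j n) := ⟨_, rfl⟩
    obtain ⟨L, hL⟩ : ∃ L, L = Real.log (n : ℝ) := ⟨_, rfl⟩
    rw [← hRd, ← hL] at g2 ⊢
    rw [← hL] at g3
    have hL0 : 0 < L := by linarith
    have hR1 : 32 / δ ^ 2 * L ≤ R := by rwa [le_div_iff₀ hL0] at g2
    have hR0 : 0 < R := lt_of_lt_of_le (by positivity) hR1
    obtain ⟨τ, hτ⟩ : ∃ τ, τ = √(2 * L / R) := ⟨_, rfl⟩
    have hτ2 : τ ^ 2 = 2 * L / R := by rw [hτ]; exact Real.sq_sqrt (by positivity)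
    have hτ0 : 0 < τ := by rw [hτ]; exact Real.sqrt_pos.2 (by positivity)
    have hτδ : τ ≤ δ / 4 := by
      rw [hτ]
      apply Real.sqrt_le_iff.2
      refine ⟨by positivity, ?_⟩
      rw [div_le_iff₀ hR0]
      have h1 := mul_le_mul_of_nonneg_left hR1 (show 0 ≤ (δ / 4) ^ 2 by positivity)
      have h2 : (δ / 4) ^ 2 * (32 / δ ^ 2 * L) = 2 * L := by field_simp; ring
      linarith
    have hsm : ∀ i < j n, Sm μ ℱ A V (fun m => (1 + δ) * a m) δ (t n + i) := fun i _ => by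
      rw [hVd]; exact sm_of ha hδ (by linarith) (hn₁ _ (by omega))
    have habs : |s * τ| = τ := by rw [abs_mul, hs, one_mul, abs_of_pos hτ0]
    have h1 := upper_dev (μ := μ) (θ := s * τ) hM.adapted hV hδ1 (by rw [habs]; linarith) (j n) hsm ((1 + ε) * (2 * L))
    rw [habs] at h1
    have h2 : ∑ i ∈ Finset.range (j n), (fun m => (1 + δ) * a m) (t n + i + 1) = (1 + δ) * R := by
      rw [hRd]; unfold ms; rw [Finset.mul_sum]
    rw [h2] at h1
    have hτR : τ * √(2 * R * L) = 2 * L := by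
      rw [hτ, ← Real.sqrt_mul (by positivity)]
      have : 2 * L / R * (2 * R * L) = (2 * L) ^ 2 := by field_simp
      rw [this, Real.sqrt_sq (by positivity)]
    refine le_trans (measureReal_mono (fun ω hω => ?_)) (h1.trans ?_)
    · have hω' : (1 + ε) * √(2 * R * L) ≤ s * QN μ ℱ A V (t n) (j n) ω := hω
      show (1 + ε) * (2 * L) ≤ s * τ * QN μ ℱ A V (t n) (j n) ω
      have h3 := mul_le_mul_of_nonneg_left hω' hτ0.le
      have h4 : τ * ((1 + ε) * √(2 * R * L)) = (1 + ε) * (2 * L) := by rw [← hτR]; ring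
      rw [h4] at h3
      linarith
    · rw [Real.rpow_def_of_pos (by positivity), ← hL]
      apply Real.exp_le_exp.2
      have e1 : (s * τ) ^ 2 = 2 * L / R := by
        rw [mul_pow, hτ2, ← sq_abs s, hs]; ring
      rw [e1]
      have e2 : (1 + δ) * R * (2 * L / R / 2 * (1 + 2 * τ)) = (1 + δ) * (1 + 2 * τ) * L := by field_simp
      rw [e2]
      have e3 : (1 + δ) * (1 + 2 * τ) ≤ 1 + 2 * δ := by nlinarith
      have e4 := mul_le_mul_of_nonneg_right e3 hL0.le
      nlinarith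
  have hsum : Summable (fun m : ℕ => (m : ℝ) ^ (-(1 + ε))) := Real.summable_nat_rpow.2 (by linarith)
  filter_upwards [bc hsum hb, no_VD hM hδ] with ω h1 h2
  obtain ⟨n₀, hn₀⟩ := h2
  filter_upwards [h1, ht.eventually_ge_atTop n₀] with n g1 g2
  have hω : ω ∉ WV V (t n) (j n) := by
    rintro ⟨m, h3, h4, h5⟩
    rw [hVd] at h5
    exact hn₀ m (g2.trans h3) h5
  rw [← QN_eq (μ := μ) (ℱ := ℱ) (A := A) hω]
  by_contra hc
  exact g1 (not_le.1 hc).le

set_option maxHeartbeats 4000000 in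
/-- **Lower half** -/
theorem osc_low (hM : Model μ ℱ A a) (ha : ∀ n, 0 ≤ a n) (ha0 : Tendsto a atTop (𝓝 0)) (t j : ℕ → ℕ)
    (ht : Tendsto t atTop atTop) (htm : Monotone t) (hd : ∀ᶠ n in atTop, t n + j n ≤ t (n + 1))
    (hR : Tendsto (fun n : ℕ => ms a (t n) (j n) / Real.log n) atTop atTop)
    {s : ℝ} (hs : |s| = 1) {ε : ℝ} (hε : 0 < ε) (hε1 : ε ≤ 1 / 2) : ∀ᵐ ω ∂μ, ∃ᶠ n : ℕ in atTop,
      (1 - 3 * ε) * √(2 * ms a (t n) (j n) * Real.log n) ≤ s * (cnt A (t n) (j n) ω - cmp μ ℱ A (t n) (j n) ω) := by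
  obtain ⟨δ, hδ, hδ1⟩ : ∃ δ : ℝ, 0 < δ ∧ δ = ε / 64 := ⟨ε / 64, by positivity, rfl⟩
  obtain ⟨V, hVd⟩ : ∃ V, V = VD μ ℱ A a δ := ⟨_, rfl⟩
  have hV : ∀ n, MeasurableSet[ℱ n] (V n) := fun n => by rw [hVd]; exact VD_meas δ n
  obtain ⟨n₁, hn₁⟩ := eventually_atTop.1 (ha0.eventually (eventually_le_nhds (show (0 : ℝ) < δ / 2 by positivity)))
  have hlog : Tendsto (fun n : ℕ => Real.log (n : ℝ)) atTop atTop := Real.tendsto_log_atTop.comp tendsto_natCast_atTop_atTop
  obtain ⟨R, hRd⟩ : ∃ R : ℕ → ℝ, R = fun n => ms a (t n) (j n) := ⟨_, rfl⟩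
  obtain ⟨θ, hθd⟩ : ∃ θ : ℕ → ℝ, θ = fun n : ℕ => s * ((1 - ε) * √(2 * Real.log (n : ℝ) / R n)) := ⟨_, rfl⟩
  obtain ⟨l, hld⟩ : ∃ l : ℕ → ℝ, l = fun n => √(12 * R n) := ⟨_, rfl⟩
  obtain ⟨D, hDd⟩ : ∃ D : ℕ → Set Ω, D = fun n => {ω | |MN μ ℱ A V (θ n) (t n) (j n) ω| ≤ l n} := ⟨_, rfl⟩
  -- facts about one window
  have key : ∀ᶠ n : ℕ in atTop, t n + j n ≤ t (n + 1) ∧
      (∀ C, MeasurableSet[ℱ (t n)] C → (n : ℝ) ^ (-(1 : ℝ)) * μ.real C ≤ μ.real (C ∩ D n)) ∧
      (∀ ω, ω ∉ WV V (t n) (j n) → ω ∈ D n → (1 - 3 * ε) * √(2 * R n * Real.log n) ≤ s * QN μ ℱ A V (t n) (j n) ω) := by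
    filter_upwards [hd, ht.eventually_ge_atTop n₁, hR.eventually_ge_atTop (32 / δ ^ 2),
      hlog.eventually_ge_atTop (400 / ε ^ 2), eventually_ge_atTop 2] with n g0 g1 g2 g3 g4
    refine ⟨g0, ?_⟩
    obtain ⟨r, hr⟩ : ∃ r, r = R n := ⟨_, rfl⟩
    obtain ⟨L, hL⟩ : ∃ L, L = Real.log (n : ℝ) := ⟨_, rfl⟩
    have hrR : ms a (t n) (j n) = r := by rw [hr, hRd]
    rw [hrR, ← hL] at g2
    rw [← hL] at g3
    have hε2 : 1 ≤ 1 / ε ^ 2 := by
      rw [le_div_iff₀ (by positivity)]; nlinarith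
    have hL400 : 400 ≤ ε ^ 2 * L := by
      have := mul_le_mul_of_nonneg_left g3 (sq_nonneg ε)
      have e : ε ^ 2 * (400 / ε ^ 2) = 400 := by field_simp
      linarith
    have hL0 : 0 < L := by nlinarith
    have hL1 : 1 ≤ L := by nlinarith
    have hR1 : 32 / δ ^ 2 * L ≤ r := by rwa [le_div_iff₀ hL0] at g2
    have hr0 : 0 < r := lt_of_lt_of_le (by positivity) hR1
    obtain ⟨τ, hτ⟩ : ∃ τ, τ = √(2 * L / r) := ⟨_, rfl⟩
    have hτ2 : τ ^ 2 = 2 * L / r := by rw [hτ]; exact Real.sq_sqrt (by positivity)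
    have hτ0 : 0 < τ := by rw [hτ]; exact Real.sqrt_pos.2 (by positivity)
    have hτδ : τ ≤ δ / 4 := by
      rw [hτ]
      apply Real.sqrt_le_iff.2
      refine ⟨by positivity, ?_⟩
      rw [div_le_iff₀ hr0]
      have h1 := mul_le_mul_of_nonneg_left hR1 (show 0 ≤ (δ / 4) ^ 2 by positivity)
      have h2 : (δ / 4) ^ 2 * (32 / δ ^ 2 * L) = 2 * L := by field_simp; ring
      linarith
    have hθn : θ n = s * ((1 - ε) * τ) := by rw [hθd, hτ, hL, hr]
    have habs : |θ n| = (1 - ε) * τ := by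
      rw [hθn, abs_mul, hs, one_mul, abs_of_pos (mul_pos (by linarith) hτ0)]
    have habs0 : 0 < |θ n| := by rw [habs]; exact mul_pos (by linarith) hτ0
    have habsδ : |θ n| ≤ δ / 4 := by rw [habs]; nlinarith
    have hθ2 : θ n ^ 2 = (1 - ε) ^ 2 * (2 * L / r) := by rw [← sq_abs, habs, mul_pow, hτ2]
    have hsm : ∀ i < j n, Sm μ ℱ A V (fun m => (1 + δ) * a m) δ (t n + i) := fun i _ => by
      rw [hVd]; exact sm_of ha hδ (by linarith) (hn₁ _ (by omega))
    have h2 : ∑ i ∈ Finset.range (j n), (fun m => (1 + δ) * a m) (t n + i + 1) = (1 + δ) * r := by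
      rw [← hrR]; unfold ms; rw [Finset.mul_sum]
    have hln : l n = √(12 * r) := by rw [hld, hr]
    have hl0 : 0 < l n := by rw [hln]; exact Real.sqrt_pos.2 (by positivity)
    have hl2 : l n ^ 2 = 12 * r := by rw [hln]; exact Real.sq_sqrt (by positivity)
    have hτl : τ * l n = √(24 * L) := by
      rw [hτ, hln, ← Real.sqrt_mul (by positivity)]
      congr 1
      field_simp
      ring
    have hsq24 : √(24 * L) ≤ ε / 4 * L := by
      apply Real.sqrt_le_iff.2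
      refine ⟨by positivity, ?_⟩
      have : (ε / 4 * L) ^ 2 = (ε ^ 2 * L) * L / 16 := by ring
      rw [this]
      nlinarith
    constructor
    · intro C hC
      have h3 := lower_dev (μ := μ) (θ := θ n) hM.adapted hV hδ.le (by linarith) (by linarith) (j n) hsm hl0 (by
        rw [← Finset.mul_sum, h2, hl2]; nlinarith) hC
      rw [hDd]
      refine le_trans (mul_le_mul_of_nonneg_right ?_ measureReal_nonneg) h3
      rw [h2, hθ2, Real.rpow_def_of_pos (by positivity), ← hL]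
      have e1 : |θ n| * l n ≤ ε / 4 * L := by
        rw [habs, mul_assoc, hτl]
        have : 0 ≤ √(24 * L) := Real.sqrt_nonneg _
        nlinarith
      have e2 : (1 + δ) * r * ((1 - ε) ^ 2 * (2 * L / r) / 2 * (1 + 4 * |θ n| + 16 * δ)) =
          (1 + δ) * (1 + 4 * |θ n| + 16 * δ) * (1 - ε) ^ 2 * L := by field_simp
      rw [e2]
      have e3 : (1 + δ) * (1 + 4 * |θ n| + 16 * δ) ≤ 1 + 32 * δ := by nlinarith
      have e4 : (1 + 32 * δ) * (1 - ε) ^ 2 ≤ 1 - ε := by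
        rw [hδ1]
        have : (1 + 32 * (ε / 64)) * (1 - ε) ≤ 1 := by nlinarith
        calc (1 + 32 * (ε / 64)) * (1 - ε) ^ 2 = ((1 + 32 * (ε / 64)) * (1 - ε)) * (1 - ε) := by ring
          _ ≤ 1 * (1 - ε) := mul_le_mul_of_nonneg_right this (by linarith)
          _ = 1 - ε := one_mul _
      have e5 : (1 + δ) * (1 + 4 * |θ n| + 16 * δ) * (1 - ε) ^ 2 * L ≤ (1 - ε) * L := by
        apply mul_le_mul_of_nonneg_right _ hL0.le
        exact (mul_le_mul_of_nonneg_right e3 (sq_nonneg _)).trans e4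
      have e6 : Real.exp (L * -1) ≤ 1 / 2 * Real.exp (-(1 - 3 * ε / 4) * L) := by
        have e7 : Real.exp (-(1 - 3 * ε / 4) * L) = Real.exp (L * -1) * Real.exp (3 * ε / 4 * L) := by
          rw [← Real.exp_add]; congr 1; ring
        have e8 : 2 ≤ Real.exp (3 * ε / 4 * L) := by
          have := Real.add_one_le_exp (3 * ε / 4 * L)
          have h9 : 1 ≤ 3 * ε / 4 * L := by nlinarith
          linarith
        rw [e7]
        have := mul_le_mul_of_nonneg_left e8 (Real.exp_pos (L * -1)).le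
        linarith
      refine e6.trans ?_
      apply mul_le_mul_of_nonneg_left _ (by norm_num)
      apply Real.exp_le_exp.2
      nlinarith
    · intro ω hω hωD
      rw [hDd] at hωD
      have h3 := QN_ge (μ := μ) (ℱ := ℱ) (A := A) (lo := fun m => (1 - δ) * a m) (θ := θ n) (by linarith) (by linarith)
        (by linarith) (j n) hsm (fun i hi => ⟨mul_nonneg (by linarith) (ha _), fun ω hω => by
          rw [hVd] at hω
          simp only [VD, mem_ofPred_eq, not_not] at hω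
          have := (abs_le.1 hω).1
          linarith⟩) hω hωD
      have h4 : ∑ i ∈ Finset.range (j n), (fun m => (1 - δ) * a m) (t n + i + 1) = (1 - δ) * r := by
        rw [← hrR]; unfold ms; rw [Finset.mul_sum]
      rw [h4] at h3
      -- divide by |θ|
      have e1 : θ n * QN μ ℱ A V (t n) (j n) ω = |θ n| * (s * QN μ ℱ A V (t n) (j n) ω) := by
        rw [habs, hθn]; ring
      rw [e1] at h3
      have e2 : (1 - δ) * r * (θ n ^ 2 * (1 - |θ n| - 2 * δ)) - |θ n| * l n =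
          |θ n| * ((1 - δ) * r * (|θ n| * (1 - |θ n| - 2 * δ)) - l n) := by
        rw [← sq_abs (θ n)]; ring
      rw [e2] at h3
      have h5 := le_of_mul_le_mul_left h3 habs0
      refine le_trans ?_ h5
      rw [← hr, ← hL]
      obtain ⟨Y, hY⟩ : ∃ Y, Y = √(2 * r * L) := ⟨_, rfl⟩
      have hY0 : 0 < Y := by rw [hY]; exact Real.sqrt_pos.2 (by positivity)
      have hrτ : r * τ = Y := by
        rw [hτ, hY]
        have : r = √(r ^ 2) := (Real.sqrt_sq hr0.le).symm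
        nth_rewrite 1 [this]
        rw [← Real.sqrt_mul (by positivity)]
        congr 1
        field_simp
      have hlY : l n ≤ ε * Y := by
        rw [hln, hY]
        apply Real.sqrt_le_iff.2
        refine ⟨by positivity, ?_⟩
        rw [mul_pow, Real.sq_sqrt (by positivity)]
        nlinarith
      rw [← hY]
      have e3 : (1 - δ) * r * (|θ n| * (1 - |θ n| - 2 * δ)) = (1 - δ) * (1 - |θ n| - 2 * δ) * (1 - ε) * Y := by
        rw [← hrτ, habs]; ring
      rw [e3]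
      have e4 : 1 - ε ≤ (1 - δ) * (1 - |θ n| - 2 * δ) := by
        have h6 : 1 - 3 * δ ≤ 1 - |θ n| - 2 * δ := by linarith
        have h7 : (1 - δ) * (1 - 3 * δ) ≤ (1 - δ) * (1 - |θ n| - 2 * δ) := mul_le_mul_of_nonneg_left h6 (by linarith)
        nlinarith
      have e5 : (1 - 2 * ε) ≤ (1 - δ) * (1 - |θ n| - 2 * δ) * (1 - ε) := by
        have := mul_le_mul_of_nonneg_right e4 (show 0 ≤ 1 - ε by linarith)
        nlinarith
      have e6 := mul_le_mul_of_nonneg_right e5 hY0.le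
      linarith
  obtain ⟨N, hN⟩ := eventually_atTop.1 key
  have hio := io_of (μ := μ) (ℱ := ℱ) (D := D) (s := t) htm (p := fun n : ℕ => (n : ℝ) ^ (-(1 : ℝ))) (N := N)
    (fun m hm => by
      have h1 : MeasurableSet[ℱ (t m + j m)] (D m) := by
        rw [hDd]
        have h2 := (MN_meas (θ := θ m) hM.adapted hV (t := t m) (j m) (μ := μ)).measurable
        have h3 : Measurable[ℱ (t m + j m)] (fun ω => |MN μ ℱ A V (θ m) (t m) (j m) ω|) := by
          exact measurable_abs.comp h2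
        exact h3 measurableSet_Iic
      exact ℱ.mono (hN m hm).1 _ h1) (fun m hm => (hN m hm).2.1) (by
      have h1 : ¬ Summable (fun n : ℕ => (n : ℝ) ^ (-(1 : ℝ))) := by
        rw [Real.summable_nat_rpow]; norm_num
      have h2 : ¬ Summable (fun n : ℕ => ((n + N : ℕ) : ℝ) ^ (-(1 : ℝ))) := by
        intro h3
        exact h1 ((summable_nat_add_iff N).1 h3)
      have h3 := (not_summable_iff_tendsto_nat_atTop_of_nonneg (fun n => by positivity)).1 h2
      refine h3.congr fun j => ?_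
      rw [Finset.sum_Ico_eq_sum_range]
      have : N + j - N = j := by omega
      rw [this]
      apply Finset.sum_congr rfl
      intro i _
      rw [add_comm i N])
  filter_upwards [hio, no_VD hM hδ] with ω h1 h2
  obtain ⟨n₀, hn₀⟩ := h2
  have h3 : ∀ᶠ n in atTop, N ≤ n ∧ n₀ ≤ t n := (eventually_ge_atTop N).and (ht.eventually_ge_atTop n₀)
  refine (h1.and_eventually h3).mono fun n hn => ?_
  obtain ⟨g1, g2, g3⟩ := hn
  have hω : ω ∉ WV V (t n) (j n) := by
    rintro ⟨m, h3, h4, h5⟩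
    rw [hVd] at h5
    exact hn₀ m (g3.trans h3) h5
  rw [← QN_eq (μ := μ) (ℱ := ℱ) (A := A) hω]
  have := (hN n g2).2.2 ω hω g1
  rw [hRd] at this
  exact this

end Pool.Agent.U462.Osc
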