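import Mathlib
import Pool.Agent.U462.Osc.Osc
import Pool.Agent.U462.Uni.Law
import Pool.Agent.U462.Mul.Up

set_option autoImplicit false
set_option linter.unusedSectionVars false

/-! # Windows of length `n + 1` near `n²` in the sieved models -/

open MeasureTheory Filter Set
open scoped ENNReal Topology

namespace Pool.Agent.U462.Osc

open Pool.Agent.R528.RM (dens WV)
open Pool.Agent.U462.Mul (Ix T_sq)
open Pool.Agent.U462.Gap (Model fT aT aT_nonneg aT_tendsto Small sum_window exists_R tlog)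
open Pool.Agent.U462.Uni (mss mss_bounds)

variable {Ω : Type} {m0 : MeasurableSpace Ω} {μ : Measure Ω} [IsProbabilityMeasure μ]
  {ℱ : Filtration ℕ m0} {A : ℕ → Set Ω}

lemma ms_eq (a : ℕ → ℝ) (t j : ℕ) : ms a t j = mss a t j := by
  unfold ms mss
  induction j with
  | zero => simp
  | succ j ih => rw [Finset.sum_range_succ, ih, ← add_assoc, Finset.sum_Ioc_succ_top (by omega)]

set_option maxHeartbeats 4000000 in
/-- the mass of the windows -/
lemma opp_mass {T : ℕ → ℕ} (hT : Monotone T) (hTs : Small T) {t : ℕ → ℕ}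
    (ht : ∀ᶠ n : ℕ in atTop, n ^ 2 ≤ 2 * t n ∧ t n ≤ n ^ 2) :
    Tendsto (fun n : ℕ => ms (aT T) (t n) (n + 1) / ((n : ℝ) / (2 * Real.log n))) atTop (𝓝 1) := by
  rw [Metric.tendsto_atTop]
  intro ε hε
  obtain ⟨δ, hδ, hδ1, hδ2⟩ : ∃ δ : ℝ, 0 < δ ∧ δ ≤ 1 / 8 ∧ 8 * δ < ε :=
    ⟨min (1 / 8) (ε / 16), lt_min (by norm_num) (by linarith), min_le_left _ _, by
      linarith [min_le_right (1 / 8) (ε / 16)]⟩
  obtain ⟨R, hR, hRε⟩ := exists_R δ hδ
  have h2n : Tendsto (fun n : ℕ => 2 * n) atTop atTop := tendsto_id.const_mul_atTop' (by norm_num)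
  have hsq : ∀ᶠ n : ℕ in atTop, ((2 * n : ℕ) : ℝ) ^ (1 / 2 : ℝ) ≤ δ * n := by
    have h1 : ∀ᶠ n : ℕ in atTop, 2 / δ ^ 2 ≤ (n : ℝ) := tendsto_natCast_atTop_atTop.eventually_ge_atTop _
    filter_upwards [h1] with n hn
    rw [← Real.sqrt_eq_rpow]
    have hn0 : (0 : ℝ) ≤ n := Nat.cast_nonneg n
    apply Real.sqrt_le_iff.2
    refine ⟨by positivity, ?_⟩
    push_cast
    rw [div_le_iff₀ (by positivity)] at hn
    nlinarith
  have hfin : ∀ᶠ n : ℕ in atTop, dist (ms (aT T) (t n) (n + 1) / ((n : ℝ) / (2 * Real.log n))) 1 < ε := by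
    filter_upwards [ht, h2n.eventually (T_sq T hT hTs (8 * R + 18) (ε := 1 / 2) (by norm_num)), hsq,
      tlog.eventually_ge_atTop (4 / δ), tendsto_natCast_atTop_atTop.eventually_ge_atTop (4 / δ), eventually_ge_atTop 4]
      with n g1 g2 g3 g4 g5 g6
    obtain ⟨g1a, g1b⟩ := g1
    have hn : (4 : ℝ) ≤ n := by exact_mod_cast g6
    obtain ⟨L, hL⟩ : ∃ L, L = Real.log (n : ℝ) := ⟨_, rfl⟩
    rw [← hL] at g4 ⊢
    have hδL : 4 ≤ δ * L := by
      have := mul_le_mul_of_nonneg_left g4 hδ.le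
      have e : δ * (4 / δ) = 4 := by field_simp
      linarith
    have hδn : 4 ≤ δ * n := by
      have := mul_le_mul_of_nonneg_left g5 hδ.le
      have e : δ * (4 / δ) = 4 := by field_simp
      linarith
    have hL0 : 4 ≤ L := by nlinarith
    have ht4 : 8 ≤ t n := by
      have : 16 ≤ n ^ 2 := by nlinarith
      omega
    have hjt : n + 1 ≤ 3 * t n := by nlinarith
    -- the sieve
    have s1 := sum_window R hR T hT (t n) (n + 1) (T ((2 * n) ^ 2)) (hT (by nlinarith))
    have s2 := mss_bounds T (n := t n) (j := n + 1) (by omega) hjt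
    obtain ⟨F, hF⟩ : ∃ F, F = ∑ m ∈ Finset.Ioc (t n) (t n + (n + 1)), fT T m := ⟨_, rfl⟩
    rw [← hF] at s1 s2
    rw [ms_eq]
    obtain ⟨M, hM⟩ : ∃ M, M = mss (aT T) (t n) (n + 1) := ⟨_, rfl⟩
    rw [← hM] at s2 ⊢
    have hFb : |F - n| ≤ 3 * δ * n := by
      push_cast at s1
      have h1 : 2 ^ 25 * (1 / 2) ^ (2 * R) * ((n : ℝ) + 1) ≤ δ * (n + 1) :=
        mul_le_mul_of_nonneg_right hRε (by positivity)
      have h2 := g2.trans g3
      obtain ⟨e1, e2⟩ := abs_le.1 s1
      rw [abs_le]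
      constructor <;> nlinarith
    obtain ⟨f1, f2⟩ := abs_le.1 hFb
    -- logarithms
    have htR : (n : ℝ) ^ 2 / 2 ≤ t n := by
      have : ((n ^ 2 : ℕ) : ℝ) ≤ ((2 * t n : ℕ) : ℝ) := by exact_mod_cast g1a
      push_cast at this
      linarith
    have htR2 : (t n : ℝ) ≤ (n : ℝ) ^ 2 := by exact_mod_cast g1b
    have ht0 : (0 : ℝ) < t n := by
      have : 0 < t n := by omega
      exact_mod_cast this
    have l1 : Real.log (t n) ≤ 2 * L := by
      have := Real.log_le_log ht0 htR2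
      rw [Real.log_pow, ← hL] at this
      push_cast at this
      linarith
    have l2 : 2 * L - 1 ≤ Real.log (t n) := by
      have := Real.log_le_log (by positivity) htR
      rw [Real.log_div (by positivity) (by norm_num), Real.log_pow, ← hL] at this
      push_cast at this
      have := Real.log_two_lt_d9
      linarith
    have hn0 : (0 : ℝ) < n := by linarith
    have e0 : M / ((n : ℝ) / (2 * L)) = M * (2 * L) / n := by field_simp
    rw [Real.dist_eq, e0]
    have m1 : M * (2 * L) ≤ (1 + 4 * δ) * n := by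
      have h1 : M * (2 * L - 1) ≤ F := by
        have h2 : M * Real.log (t n) ≤ F := by
          have := s2.2
          rwa [le_div_iff₀ (by linarith)] at this
        have h3 : 0 ≤ M := by
          rw [hM]; unfold mss
          exact Finset.sum_nonneg fun m _ => aT_nonneg T m
        nlinarith
      have h2 : M * (2 * L) * (1 - δ / 8) ≤ M * (2 * L - 1) := by
        have h3 : 0 ≤ M := by
          rw [hM]; unfold mss
          exact Finset.sum_nonneg fun m _ => aT_nonneg T m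
        nlinarith
      have h4 : M * (2 * L) * (1 - δ / 8) ≤ (1 + 3 * δ) * n := by linarith
      have h5 : (1 + 3 * δ) * n ≤ (1 + 4 * δ) * n * (1 - δ / 8) := by nlinarith
      exact le_of_mul_le_mul_right (h4.trans h5) (by linarith)
    have m2 : (1 - 4 * δ) * n ≤ M * (2 * L) := by
      have h1 : F ≤ M * (2 * L + 2) := by
        have h2 : F ≤ M * (Real.log (t n) + 2) := by
          have := s2.1
          rwa [div_le_iff₀ (by linarith)] at this
        have h3 : 0 ≤ M := by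
          rw [hM]; unfold mss
          exact Finset.sum_nonneg fun m _ => aT_nonneg T m
        nlinarith
      have h2 : (1 - 3 * δ) * n ≤ M * (2 * L) * (1 + δ / 4) := by
        have h3 : 0 ≤ M := by
          rw [hM]; unfold mss
          exact Finset.sum_nonneg fun m _ => aT_nonneg T m
        have h4 : M * (2 * L + 2) ≤ M * (2 * L) * (1 + δ / 4) := by nlinarith
        linarith
      have h5 : (1 - 4 * δ) * n * (1 + δ / 4) ≤ (1 - 3 * δ) * n := by nlinarith
      exact le_of_mul_le_mul_right (h5.trans h2) (by linarith)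
    rw [abs_lt]
    constructor
    · rw [neg_lt_sub_iff_lt_add, ← sub_lt_iff_lt_add', lt_div_iff₀ hn0]
      nlinarith
    · rw [sub_lt_iff_lt_add, div_lt_iff₀ hn0]
      nlinarith
  obtain ⟨N, hN⟩ := eventually_atTop.1 hfin
  exact ⟨N, hN⟩

/-- the law and the oscillation for a sequence of windows of length `n + 1` near `n²` -/
theorem opp_seq {T : ℕ → ℕ} (hM : Model μ ℱ A (aT T)) (hT : Monotone T) (hTs : Small T) {t : ℕ → ℕ}
    (ht : ∀ᶠ n : ℕ in atTop, n ^ 2 ≤ 2 * t n ∧ t n ≤ n ^ 2) (htm : Monotone t)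
    (hd : ∀ᶠ n in atTop, t n + (n + 1) ≤ t (n + 1)) : ∀ᵐ ω ∂μ,
      Tendsto (fun n : ℕ => cnt A (t n) (n + 1) ω / ((n : ℝ) / (2 * Real.log n))) atTop (𝓝 1) ∧
      ∀ ε : ℝ, 0 < ε → (∀ᶠ n : ℕ in atTop, |cnt A (t n) (n + 1) ω - cmp μ ℱ A (t n) (n + 1) ω| ≤ (1 + ε) * √n) ∧
        (∃ᶠ n : ℕ in atTop, (1 - ε) * √n ≤ cnt A (t n) (n + 1) ω - cmp μ ℱ A (t n) (n + 1) ω) ∧
        (∃ᶠ n : ℕ in atTop, cnt A (t n) (n + 1) ω - cmp μ ℱ A (t n) (n + 1) ω ≤ -((1 - ε) * √n)) := by
  have hmass := opp_mass hT hTs ht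
  have htop : Tendsto t atTop atTop := by
    have h1 : Tendsto (fun n : ℕ => n ^ 2 / 2) atTop atTop := by
      apply tendsto_atTop_atTop.2
      intro b
      refine ⟨2 * b + 2, fun n hn => ?_⟩
      rw [Nat.le_div_iff_mul_le (by norm_num)]
      nlinarith
    refine tendsto_atTop_mono' atTop ?_ h1
    filter_upwards [ht] with n hn
    exact Nat.div_le_of_le_mul hn.1
  obtain ⟨r, hr⟩ : ∃ r : ℕ → ℝ, r = fun n => ms (aT T) (t n) (n + 1) := ⟨_, rfl⟩
  have hlog := tlog
  -- ms ≥ n / (4 log n)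
  have hlow : ∀ᶠ n : ℕ in atTop, (n : ℝ) / (4 * Real.log n) ≤ ms (aT T) (t n) (n + 1) := by
    filter_upwards [hmass.eventually (lt_mem_nhds (show (1 / 2 : ℝ) < 1 by norm_num)), hlog.eventually_ge_atTop 1,
      eventually_ge_atTop 1] with n h1 h2 h3
    have hn : (1 : ℝ) ≤ n := by exact_mod_cast h3
    rw [lt_div_iff₀ (by positivity)] at h1
    have e : (n : ℝ) / (4 * Real.log n) = 1 / 2 * (n / (2 * Real.log n)) := by field_simp; norm_num
    rw [e]; exact h1.le
  have hR : Tendsto (fun n : ℕ => ms (aT T) (t n) ((fun n => n + 1) n) / Real.log n) atTop atTop := by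
    have h1 : Tendsto (fun n : ℕ => (n : ℝ) ^ (1 / 2 : ℝ)) atTop atTop :=
      (tendsto_rpow_atTop (by norm_num)).comp tendsto_natCast_atTop_atTop
    refine tendsto_atTop_mono' atTop ?_ h1
    filter_upwards [hlow, Pool.Agent.U462.Mul.rpow_log_sq (η := 1 / 2) (C := 4) (by norm_num), hlog.eventually_ge_atTop 1,
      eventually_ge_atTop 1] with n g1 g2 g3 g4
    have hn : (1 : ℝ) ≤ n := by exact_mod_cast g4
    rw [le_div_iff₀ (by linarith)]
    refine le_trans ?_ g1
    rw [le_div_iff₀ (by positivity)]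
    have h5 : (n : ℝ) ^ (1 / 2 : ℝ) * (n : ℝ) ^ (1 / 2 : ℝ) = n := by
      rw [← Real.rpow_add (by linarith)]; norm_num
    have h6 : (0 : ℝ) ≤ (n : ℝ) ^ (1 / 2 : ℝ) := by positivity
    nlinarith
  -- the square roots
  have hsqrt : Tendsto (fun n : ℕ => √(2 * ms (aT T) (t n) (n + 1) * Real.log n) / √n) atTop (𝓝 1) := by
    have h1 := (Real.continuous_sqrt.tendsto 1).comp hmass
    rw [Real.sqrt_one] at h1
    refine h1.congr' ?_
    filter_upwards [eventually_ge_atTop 1, hlog.eventually_ge_atTop 1] with n h2 h3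
    have hn : (1 : ℝ) ≤ n := by exact_mod_cast h2
    simp only [Function.comp]
    rw [← Real.sqrt_div' _ (by positivity)]
    congr 1
    field_simp
  have hup : ∀ s : ℝ, |s| = 1 → ∀ᵐ ω ∂μ, ∀ k : ℕ, ∀ᶠ n : ℕ in atTop,
      s * (cnt A (t n) (n + 1) ω - cmp μ ℱ A (t n) (n + 1) ω) ≤
        (1 + 1 / ((k : ℝ) + 1)) * √(2 * ms (aT T) (t n) (n + 1) * Real.log n) := by
    intro s hs
    rw [ae_all_iff]
    intro k
    exact osc_up hM (aT_nonneg T) (aT_tendsto T hTs) t (fun n => n + 1) htop hR hs (by positivity)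
  have hdn : ∀ s : ℝ, |s| = 1 → ∀ᵐ ω ∂μ, ∀ k : ℕ, ∃ᶠ n : ℕ in atTop,
      (1 - 3 * (1 / ((k : ℝ) + 2))) * √(2 * ms (aT T) (t n) (n + 1) * Real.log n) ≤
      s * (cnt A (t n) (n + 1) ω - cmp μ ℱ A (t n) (n + 1) ω) := by
    intro s hs
    rw [ae_all_iff]
    intro k
    refine osc_low hM (aT_nonneg T) (aT_tendsto T hTs) t (fun n => n + 1) htop htm hd hR hs (by positivity) ?_
    rw [div_le_div_iff₀ (by positivity) (by norm_num)]
    have : (0 : ℝ) ≤ k := Nat.cast_nonneg k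
    linarith
  filter_upwards [hup 1 (by norm_num), hup (-1) (by norm_num), hdn 1 (by norm_num), hdn (-1) (by norm_num), hM.law]
    with ω u1 u2 d1 d2 hlaw
  have hsq0 : ∀ᶠ n : ℕ in atTop, (0 : ℝ) < √n := by
    filter_upwards [eventually_ge_atTop 1] with n hn
    exact Real.sqrt_pos.2 (by exact_mod_cast hn)
  have hosc : ∀ ε : ℝ, 0 < ε → (∀ᶠ n : ℕ in atTop, |cnt A (t n) (n + 1) ω - cmp μ ℱ A (t n) (n + 1) ω| ≤ (1 + ε) * √n) ∧
        (∃ᶠ n : ℕ in atTop, (1 - ε) * √n ≤ cnt A (t n) (n + 1) ω - cmp μ ℱ A (t n) (n + 1) ω) ∧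
        (∃ᶠ n : ℕ in atTop, cnt A (t n) (n + 1) ω - cmp μ ℱ A (t n) (n + 1) ω ≤ -((1 - ε) * √n)) := by
    intro ε hε
    obtain ⟨k, hk⟩ := exists_nat_gt (max 1 (6 / ε))
    have hk1 : (1 : ℝ) < k := lt_of_le_of_lt (le_max_left _ _) hk
    have hk2 : 6 / ε < k := lt_of_le_of_lt (le_max_right _ _) hk
    have hkε : 6 < ε * k := by rwa [div_lt_iff₀ hε, mul_comm] at hk2
    obtain ⟨e, he0, he1, he2⟩ : ∃ e : ℝ, 0 < e ∧ e ≤ 1 ∧ 4 * e ≤ ε := ⟨min 1 (ε / 4), lt_min one_pos (by linarith),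
      min_le_left _ _, by linarith [min_le_right 1 (ε / 4)]⟩
    have r1 : ∀ᶠ n : ℕ in atTop, √(2 * ms (aT T) (t n) (n + 1) * Real.log n) ≤ (1 + e) * √n := by
      filter_upwards [hsqrt.eventually (gt_mem_nhds (show (1 : ℝ) < 1 + e by linarith)), hsq0] with n h1 h2
      rw [div_lt_iff₀ h2] at h1
      exact h1.le
    have r2 : ∀ᶠ n : ℕ in atTop, (1 - e) * √n ≤ √(2 * ms (aT T) (t n) (n + 1) * Real.log n) := by
      filter_upwards [hsqrt.eventually (lt_mem_nhds (show (1 : ℝ) - e < 1 by linarith)), hsq0] with n h1 h2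
      rw [lt_div_iff₀ h2] at h1
      exact h1.le
    have hk3 : 1 / ((k : ℝ) + 1) ≤ ε / 6 := by
      rw [div_le_div_iff₀ (by positivity) (by norm_num)]
      nlinarith
    have hk4 : 3 * (1 / ((k : ℝ) + 2)) ≤ ε / 2 := by
      rw [← mul_div_assoc, div_le_div_iff₀ (by positivity) (by norm_num)]
      nlinarith
    have hupper : ∀ x y z : ℝ, 0 ≤ z → x ≤ (1 + 1 / ((k : ℝ) + 1)) * y → y ≤ (1 + e) * z → x ≤ (1 + ε) * z := by
      intro x y z hz h1 h2
      have h3 : (1 + 1 / ((k : ℝ) + 1)) * y ≤ (1 + ε / 6) * ((1 + e) * z) := by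
        have h4 : 0 ≤ (1 + e) * z := mul_nonneg (by linarith) hz
        calc (1 + 1 / ((k : ℝ) + 1)) * y ≤ (1 + 1 / ((k : ℝ) + 1)) * ((1 + e) * z) :=
              mul_le_mul_of_nonneg_left h2 (by positivity)
          _ ≤ _ := mul_le_mul_of_nonneg_right (by linarith) h4
      have h5 : (1 + ε / 6) * (1 + e) ≤ 1 + ε := by nlinarith
      have h6 := mul_le_mul_of_nonneg_right h5 hz
      nlinarith
    have hlower : ∀ x y z : ℝ, 0 ≤ z → 0 ≤ y → (1 - 3 * (1 / ((k : ℝ) + 2))) * y ≤ x → (1 - e) * z ≤ y → (1 - ε) * z ≤ x := by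
      intro x y z hz hy h1 h2
      have h3 : (1 - ε / 2) * y ≤ x := by nlinarith
      rcases le_total ε 1 with h4 | h4
      · have h5 : (1 - ε / 2) * ((1 - e) * z) ≤ (1 - ε / 2) * y := mul_le_mul_of_nonneg_left h2 (by linarith)
        have h6 : 1 - ε ≤ (1 - ε / 2) * (1 - e) := by nlinarith
        have h7 := mul_le_mul_of_nonneg_right h6 hz
        nlinarith
      · have h5 : (1 - ε) * z ≤ 0 := mul_nonpos_of_nonpos_of_nonneg (by linarith) hz
        have h6 : 0 ≤ (1 - 3 * (1 / ((k : ℝ) + 2))) * y := by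
          apply mul_nonneg _ hy
          have : 3 * (1 / ((k : ℝ) + 2)) ≤ 1 := by
            rw [← mul_div_assoc, div_le_one (by positivity)]
            linarith
          linarith
        linarith
    refine ⟨?_, ?_, ?_⟩
    · filter_upwards [u1 k, u2 k, r1] with n h1 h2 h3
      rw [abs_le']
      exact ⟨hupper _ _ _ (Real.sqrt_nonneg _) (by linarith) h3, hupper _ _ _ (Real.sqrt_nonneg _) (by linarith) h3⟩
    · refine ((d1 k).and_eventually r2).mono fun n hn => ?_
      exact hlower _ _ _ (Real.sqrt_nonneg _) (Real.sqrt_nonneg _) (by linarith [hn.1]) hn.2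
    · refine ((d2 k).and_eventually r2).mono fun n hn => ?_
      have := hlower (-(cnt A (t n) (n + 1) ω - cmp μ ℱ A (t n) (n + 1) ω)) _ _ (Real.sqrt_nonneg _) (Real.sqrt_nonneg _)
        (by linarith [hn.1]) hn.2
      linarith
  refine ⟨?_, hosc⟩
  -- the law
  have hcmp : Tendsto (fun n : ℕ => cmp μ ℱ A (t n) (n + 1) ω / ((n : ℝ) / (2 * Real.log n))) atTop (𝓝 1) := by
    have h1 : ∀ ε : ℝ, 0 < ε → ∀ᶠ n : ℕ in atTop, |cmp μ ℱ A (t n) (n + 1) ω - ms (aT T) (t n) (n + 1)| ≤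
        ε * ms (aT T) (t n) (n + 1) := by
      intro ε hε
      obtain ⟨n₀, hn₀⟩ := eventually_atTop.1 (hlaw ε hε)
      filter_upwards [htop.eventually_ge_atTop n₀] with n hn
      unfold cmp ms
      rw [← Finset.sum_sub_distrib, Finset.mul_sum]
      refine (Finset.abs_sum_le_sum_abs _ _).trans (Finset.sum_le_sum fun i _ => ?_)
      exact hn₀ (t n + i) (by omega)
    have h2 : Tendsto (fun n : ℕ => cmp μ ℱ A (t n) (n + 1) ω / ms (aT T) (t n) (n + 1)) atTop (𝓝 1) := by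
      rw [Metric.tendsto_atTop]
      intro ε hε
      have h3 : ∀ᶠ n : ℕ in atTop, dist (cmp μ ℱ A (t n) (n + 1) ω / ms (aT T) (t n) (n + 1)) 1 < ε := by
        filter_upwards [h1 (ε / 2) (by linarith), hlow, hlog.eventually_ge_atTop 1, eventually_ge_atTop 1]
          with n g1 g2 g3 g4
        have hn : (1 : ℝ) ≤ n := by exact_mod_cast g4
        have hm : 0 < ms (aT T) (t n) (n + 1) := lt_of_lt_of_le (by positivity) g2
        rw [Real.dist_eq]
        have e : cmp μ ℱ A (t n) (n + 1) ω / ms (aT T) (t n) (n + 1) - 1 =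
            (cmp μ ℱ A (t n) (n + 1) ω - ms (aT T) (t n) (n + 1)) / ms (aT T) (t n) (n + 1) := by field_simp
        rw [e, abs_div, abs_of_pos hm, div_lt_iff₀ hm]
        nlinarith
      obtain ⟨N, hN⟩ := eventually_atTop.1 h3
      exact ⟨N, hN⟩
    have h3 := h2.mul hmass
    rw [mul_one] at h3
    refine h3.congr' ?_
    filter_upwards [hlow, hlog.eventually_ge_atTop 1, eventually_ge_atTop 1] with n g2 g3 g4
    have hn : (1 : ℝ) ≤ n := by exact_mod_cast g4
    have hm : 0 < ms (aT T) (t n) (n + 1) := lt_of_lt_of_le (by positivity) g2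
    field_simp
  have hdiff : Tendsto (fun n : ℕ => (cnt A (t n) (n + 1) ω - cmp μ ℱ A (t n) (n + 1) ω) / ((n : ℝ) / (2 * Real.log n)))
      atTop (𝓝 0) := by
    have h1 : ∀ᶠ n : ℕ in atTop, |(cnt A (t n) (n + 1) ω - cmp μ ℱ A (t n) (n + 1) ω) / ((n : ℝ) / (2 * Real.log n))| ≤
        4 * (Real.log n / √n) := by
      filter_upwards [(hosc 1 one_pos).1, hlog.eventually_ge_atTop 1, eventually_ge_atTop 1] with n g1 g2 g3
      have hn : (1 : ℝ) ≤ n := by exact_mod_cast g3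
      have hs0 : 0 < √(n : ℝ) := Real.sqrt_pos.2 (by linarith)
      have hss : √(n : ℝ) * √n = n := Real.mul_self_sqrt (by linarith)
      rw [abs_div, abs_of_pos (show (0 : ℝ) < n / (2 * Real.log n) by positivity), div_le_iff₀ (by positivity)]
      refine g1.trans ?_
      have e : 4 * (Real.log n / √n) * ((n : ℝ) / (2 * Real.log n)) = 2 * (n / √n) := by field_simp; norm_num
      rw [e]
      have e2 : (n : ℝ) / √n = √n := by rw [div_eq_iff hs0.ne', hss]
      rw [e2]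
      linarith
    have h2 : Tendsto (fun n : ℕ => 4 * (Real.log n / √n)) atTop (𝓝 0) := by
      have h3 := (isLittleO_log_rpow_atTop (show (0 : ℝ) < 1 / 2 by norm_num)).tendsto_div_nhds_zero
      have h4 := (h3.comp tendsto_natCast_atTop_atTop).const_mul 4
      rw [mul_zero] at h4
      refine h4.congr fun n => ?_
      simp only [Function.comp]
      rw [Real.sqrt_eq_rpow]
    exact squeeze_zero_norm' (by simpa only [Real.norm_eq_abs] using h1) h2
  have h := hcmp.add hdiff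
  rw [add_zero] at h
  refine h.congr fun n => ?_
  rw [← add_div]
  congr 1
  ring

end Pool.Agent.U462.Osc
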